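import Mathlib

/-!
# A James function space has no weakly Cauchy rotund renorming

`JF` is the closed span, in the 2-variation norm, of the step functions jumping by one at a point
of a countable dense subset of `[0,∞)`. It is a separable Banach space.

* `no_l1`: `JF` contains no isomorphic copy of `ℓ₁`. (Given a bounded sequence of simple vectors,
  a counting argument with fourth moments yields signed averages which are uniformly small as
  functions; such averages satisfy upper `ℓ₂` estimates by a gliding hump.)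
* `no_wcr`: no equivalent norm `p` on `JF` is weakly Cauchy rotund. Let `m t` be the asymptotic
  least `p`-norm of a vector whose function jumps from `0` to `1` near `t`. For all but countably
  many `t`, the value `m t` is approached by `m u` for `u` tending to `t` from either side. Taking
  vectors with jumps slightly to the right and slightly to the left of such a `t` alternately, all
  sums `x i + x j` have `p`-norm tending to `2 * m t`, while the value at `t` alternates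
  between `0` and `1`.
-/

set_option autoImplicit false
open Filter Topology Set
open scoped NNReal ENNReal

namespace Pool.Agent.Lib.P7de1bc

/-- Finite families of pairwise disjoint half-open intervals in `[0,∞)`. -/
abbrev Part : Type :=
  {P : Finset (ℝ≥0 × ℝ≥0) // (∀ p ∈ P, p.1 ≤ p.2) ∧
    (P : Set (ℝ≥0 × ℝ≥0)).PairwiseDisjoint (fun p => Set.Ico p.1 p.2)}

/-- The fibre over a finite family of intervals. -/
abbrev Fib (P : Part) : Type := EuclideanSpace ℝ {p // p ∈ P.1}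

/-- The ambient Banach space. -/
abbrev Amb : Type := lp Fib ∞

lemma genNorm (q : ℝ≥0) (P : Part) :
    ‖(WithLp.toLp 2 (fun p => if q ∈ Set.Ico p.1.1 p.1.2 then (1:ℝ) else 0) : Fib P)‖ ≤ 1 := by
  rw [EuclideanSpace.norm_eq]
  rw [Real.sqrt_le_one]
  have h1 : (∑ i : {p // p ∈ P.1}, ‖(if q ∈ Set.Ico i.1.1 i.1.2 then (1:ℝ) else 0)‖ ^ 2)
      = ((Finset.univ.filter (fun i : {p // p ∈ P.1} => q ∈ Set.Ico i.1.1 i.1.2)).card : ℝ) := by
    rw [Finset.card_filter]
    push_cast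
    apply Finset.sum_congr rfl
    intro i _
    split_ifs <;> simp
  have h2 : (Finset.univ.filter (fun i : {p // p ∈ P.1} => q ∈ Set.Ico i.1.1 i.1.2)).card ≤ 1 := by
    apply Finset.card_le_one.2
    intro a ha b hb
    simp only [Finset.mem_filter, Finset.mem_univ, true_and] at ha hb
    by_contra hab
    have hab' : a.1 ≠ b.1 := fun h => hab (Subtype.ext h)
    have := P.2.2 a.2 b.2 hab'
    exact (Set.disjoint_left.1 this ha hb)
  calc _ = ((Finset.univ.filter (fun i : {p // p ∈ P.1} => q ∈ Set.Ico i.1.1 i.1.2)).card : ℝ) := h1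
    _ ≤ 1 := by exact_mod_cast h2

/-- The generator: unit mass at `q`. -/
noncomputable def gen (q : ℝ≥0) : Amb :=
  ⟨fun P => WithLp.toLp 2 (fun p => if q ∈ Set.Ico p.1.1 p.1.2 then (1:ℝ) else 0), by
    apply memℓp_infty
    refine ⟨1, ?_⟩
    rintro _ ⟨P, rfl⟩
    exact genNorm q P⟩

lemma gen_apply (q : ℝ≥0) (P : Part) (p : {p // p ∈ P.1}) :
    (gen q P) p = if q ∈ Set.Ico p.1.1 p.1.2 then (1:ℝ) else 0 := rfl

lemma norm_gen_le (q : ℝ≥0) : ‖gen q‖ ≤ 1 := by
  apply lp.norm_le_of_forall_le zero_le_one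
  intro P
  exact genNorm q P

/-- countable dense set of positions -/
noncomputable def pos (n : ℕ) : ℝ≥0 := TopologicalSpace.denseSeq ℝ≥0 n

/-- The simple vectors. -/
noncomputable def simp0 : Submodule ℝ Amb := Submodule.span ℝ (Set.range (fun n : ℕ => gen (pos n)))

/-- The James function space (step function model). -/
noncomputable def JFs : Submodule ℝ Amb := simp0.topologicalClosure

abbrev JF : Type := JFs

/-- Singleton family. -/
def sing (t : ℝ≥0) : Part := ⟨{(⊥, t)}, by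
  refine ⟨?_, ?_⟩
  · intro p hp
    rw [Finset.mem_singleton] at hp
    subst hp
    exact bot_le
  · simp⟩

/-- coordinate functional on ambient -/
noncomputable def coord (P : Part) (p : {p // p ∈ P.1}) : Amb →L[ℝ] ℝ :=
  LinearMap.mkContinuous
    { toFun := fun x => x P p
      map_add' := fun x y => by simp
      map_smul' := fun c x => by simp } 1 (by
    intro x
    rw [one_mul]
    exact (PiLp.norm_apply_le (x P) p).trans (lp.norm_apply_le_norm (by simp) x P))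

lemma coord_apply (P : Part) (p : {p // p ∈ P.1}) (x : Amb) : coord P p x = x P p := rfl

/-- evaluation on ambient -/
noncomputable def evA (t : ℝ≥0) : Amb →L[ℝ] ℝ := coord (sing t) ⟨(⊥, t), by simp [sing]⟩

lemma abs_coord_le (P : Part) (p : {p // p ∈ P.1}) (x : Amb) : |coord P p x| ≤ ‖x‖ := by
  rw [coord_apply]
  exact (PiLp.norm_apply_le (x P) p).trans (lp.norm_apply_le_norm (by simp) x P)

lemma abs_evA_le (t : ℝ≥0) (x : Amb) : |evA t x| ≤ ‖x‖ := abs_coord_le _ _ _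

lemma evA_gen (t q : ℝ≥0) : evA t (gen q) = if q < t then 1 else 0 := by
  unfold evA
  rw [coord_apply, gen_apply]
  simp

/-- the linear relation satisfied by all elements of `JF`. -/
lemma coord_eq_of_mem {x : Amb} (hx : x ∈ JFs) (P : Part) (p : {p // p ∈ P.1}) :
    coord P p x = evA p.1.2 x - evA p.1.1 x := by
  have hcl : IsClosed {x : Amb | coord P p x = evA p.1.2 x - evA p.1.1 x} :=
    isClosed_eq (coord P p).continuous ((evA _).continuous.sub (evA _).continuous)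
  have hsub : (simp0 : Set Amb) ⊆ {x : Amb | coord P p x = evA p.1.2 x - evA p.1.1 x} := by
    intro y hy
    refine Submodule.span_induction ?_ ?_ ?_ ?_ hy
    · rintro _ ⟨n, rfl⟩
      simp only [Set.mem_ofPred_eq]
      rw [evA_gen, evA_gen, coord_apply, gen_apply]
      have hle := P.2.1 p.1 p.2
      simp only [Set.mem_Ico]
      by_cases h1 : pos n < p.1.1
      · have h2 : pos n < p.1.2 := lt_of_lt_of_le h1 hle
        simp [h1, h2, not_le.2 h1]
      · by_cases h2 : pos n < p.1.2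
        · simp [h1, h2, not_lt.1 h1]
        · simp [h1, h2]
    · simp
    · intro x y _ _ hx hy
      simp only [Set.mem_ofPred_eq] at *
      rw [map_add, map_add, map_add, hx, hy]; ring
    · intro a x _ hx
      simp only [Set.mem_ofPred_eq] at *
      rw [map_smul, map_smul, map_smul, hx]; simp only [smul_eq_mul]; ring
  exact closure_minimal hsub hcl hx


instance : CompleteSpace JF := by
  unfold JF JFs
  infer_instance

instance : TopologicalSpace.SeparableSpace JF := by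
  have h : TopologicalSpace.IsSeparable (JFs : Set Amb) := by
    have h1 : TopologicalSpace.IsSeparable (Set.range (fun n : ℕ => gen (pos n))) :=
      (Set.countable_range _).isSeparable
    have h2 : TopologicalSpace.IsSeparable (simp0 : Set Amb) := h1.span
    exact h2.closure
  exact h.separableSpace

/-- evaluation functional at time `t` -/
noncomputable def ev (t : ℝ≥0) : JF →L[ℝ] ℝ := (evA t).comp JFs.subtypeL

lemma ev_apply (t : ℝ≥0) (x : JF) : ev t x = evA t (x : Amb) := rfl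

lemma abs_ev_le (t : ℝ≥0) (x : JF) : |ev t x| ≤ ‖x‖ := abs_evA_le t x

lemma norm_fib_sq (x : JF) (P : Part) :
    ‖(x : Amb) P‖ ^ 2 = ∑ p ∈ P.1, (ev p.2 x - ev p.1 x) ^ 2 := by
  rw [EuclideanSpace.real_norm_sq_eq]
  rw [← Finset.sum_coe_sort P.1 (fun p => (ev p.2 x - ev p.1 x) ^ 2)]
  apply Finset.sum_congr rfl
  intro p _
  have := coord_eq_of_mem x.2 P p
  rw [coord_apply] at this
  rw [this]; rfl

lemma sum_sq_le (x : JF) (P : Part) :
    ∑ p ∈ P.1, (ev p.2 x - ev p.1 x) ^ 2 ≤ ‖x‖ ^ 2 := by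
  rw [← norm_fib_sq]
  have h : ‖(x : Amb) P‖ ≤ ‖x‖ := lp.norm_apply_le_norm (by simp) (x : Amb) P
  exact pow_le_pow_left₀ (norm_nonneg _) h 2

lemma norm_sq_le_of (x : JF) (C : ℝ)
    (h : ∀ P : Part, ∑ p ∈ P.1, (ev p.2 x - ev p.1 x) ^ 2 ≤ C) : ‖x‖ ^ 2 ≤ C := by
  have hC : 0 ≤ C := le_trans (Finset.sum_nonneg (fun _ _ => sq_nonneg _)) (h (sing 0))
  have h2 : ‖x‖ ≤ Real.sqrt C := by
    change ‖(x : Amb)‖ ≤ _
    apply lp.norm_le_of_forall_le (Real.sqrt_nonneg _)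
    intro P
    apply Real.le_sqrt_of_sq_le
    rw [norm_fib_sq]
    exact h P
  calc ‖x‖ ^ 2 ≤ (Real.sqrt C) ^ 2 := pow_le_pow_left₀ (norm_nonneg _) h2 2
    _ = C := Real.sq_sqrt hC

/-- simple unit vector in `JF` -/
noncomputable def e (n : ℕ) : JF :=
  ⟨gen (pos n), simp0.le_topologicalClosure (Submodule.subset_span ⟨n, rfl⟩)⟩

lemma norm_e_le (n : ℕ) : ‖e n‖ ≤ 1 := norm_gen_le _

lemma ev_e (t : ℝ≥0) (n : ℕ) : ev t (e n) = if pos n < t then 1 else 0 := evA_gen t (pos n)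

/-- The dense subspace of simple vectors of `JF`. -/
noncomputable def simpJ : Submodule ℝ JF := Submodule.comap JFs.subtype simp0

lemma exists_simp_near (x : JF) (ε : ℝ) (hε : 0 < ε) : ∃ y : JF, y ∈ simpJ ∧ ‖x - y‖ < ε := by
  have hx : (x : Amb) ∈ closure (simp0 : Set Amb) := x.2
  rw [Metric.mem_closure_iff] at hx
  obtain ⟨b, hb, hd⟩ := hx ε hε
  refine ⟨⟨b, simp0.le_topologicalClosure hb⟩, hb, ?_⟩
  rw [dist_eq_norm] at hd
  exact hd

/-- bounded variation property -/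
def BV (x : Amb) : Prop := ∃ V : ℝ, 0 ≤ V ∧ ∀ P : Part, ∑ p : {p // p ∈ P.1}, |coord P p x| ≤ V

lemma bv_gen (q : ℝ≥0) : BV (gen q) := by
  refine ⟨1, zero_le_one, ?_⟩
  intro P
  have h1 : ∑ p : {p // p ∈ P.1}, |coord P p (gen q)| = ‖(gen q) P‖ ^ 2 := by
    rw [EuclideanSpace.real_norm_sq_eq]
    apply Finset.sum_congr rfl
    intro p _
    rw [coord_apply, gen_apply]
    split_ifs <;> simp
  rw [h1]
  have h2 : ‖(gen q) P‖ ≤ 1 := genNorm q P
  calc ‖(gen q) P‖ ^ 2 ≤ 1 ^ 2 := pow_le_pow_left₀ (norm_nonneg _) h2 2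
    _ = 1 := one_pow 2

lemma bv_simp {x : Amb} (hx : x ∈ simp0) : BV x := by
  refine Submodule.span_induction ?_ ?_ ?_ ?_ hx
  · rintro _ ⟨n, rfl⟩
    exact bv_gen _
  · exact ⟨0, le_rfl, fun P => by simp⟩
  · rintro x y _ _ ⟨V, hV, h⟩ ⟨W, hW, h'⟩
    refine ⟨V + W, add_nonneg hV hW, fun P => ?_⟩
    calc ∑ p : {p // p ∈ P.1}, |coord P p (x + y)|
        ≤ ∑ p : {p // p ∈ P.1}, (|coord P p x| + |coord P p y|) := by
          apply Finset.sum_le_sum
          intro p _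
          rw [map_add]; exact abs_add_le _ _
      _ ≤ V + W := by
          rw [Finset.sum_add_distrib]; exact add_le_add (h P) (h' P)
  · rintro a x _ ⟨V, hV, h⟩
    refine ⟨|a| * V, mul_nonneg (abs_nonneg _) hV, fun P => ?_⟩
    calc ∑ p : {p // p ∈ P.1}, |coord P p (a • x)|
        = |a| * ∑ p : {p // p ∈ P.1}, |coord P p x| := by
          rw [Finset.mul_sum]
          apply Finset.sum_congr rfl
          intro p _
          rw [map_smul, smul_eq_mul, abs_mul]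
      _ ≤ |a| * V := mul_le_mul_of_nonneg_left (h P) (abs_nonneg _)

/-- variation bound, in terms of evaluations -/
lemma bv_simpJ {x : JF} (hx : x ∈ simpJ) :
    ∃ V : ℝ, 0 ≤ V ∧ ∀ P : Part, ∑ p ∈ P.1, |ev p.2 x - ev p.1 x| ≤ V := by
  obtain ⟨V, hV, h⟩ := bv_simp (x := (x : Amb)) hx
  refine ⟨V, hV, fun P => ?_⟩
  rw [← Finset.sum_coe_sort P.1 (fun p => |ev p.2 x - ev p.1 x|)]
  refine le_trans (le_of_eq ?_) (h P)
  apply Finset.sum_congr rfl
  intro p _
  rw [coord_eq_of_mem x.2 P p]; rfl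

/-- gliding hump estimate -/
lemma hump {x : JF} (hx : x ∈ simpJ) :
    ∃ ε : ℝ, 0 < ε ∧ ∀ z : JF, (∀ t, |ev t z| ≤ ε) → ‖x + z‖ ^ 2 ≤ ‖x‖ ^ 2 + ‖z‖ ^ 2 + 1 := by
  obtain ⟨V, hV, h⟩ := bv_simpJ hx
  refine ⟨1 / (4 * (V + 1)), by positivity, fun z hz => ?_⟩
  apply norm_sq_le_of
  intro P
  have key : ∀ p ∈ P.1, (ev p.2 (x + z) - ev p.1 (x + z)) ^ 2 ≤
      (ev p.2 x - ev p.1 x) ^ 2 + (ev p.2 z - ev p.1 z) ^ 2
        + |ev p.2 x - ev p.1 x| * (1 / (V + 1)) := by
    intro p _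
    rw [map_add, map_add]
    have h1 : |ev p.2 z - ev p.1 z| ≤ 1 / (2 * (V + 1)) := by
      calc |ev p.2 z - ev p.1 z| ≤ |ev p.2 z| + |ev p.1 z| := abs_sub _ _
        _ ≤ 1 / (4 * (V + 1)) + 1 / (4 * (V + 1)) := add_le_add (hz _) (hz _)
        _ = 1 / (2 * (V + 1)) := by field_simp; norm_num
    have h2 : 2 * ((ev p.2 x - ev p.1 x) * (ev p.2 z - ev p.1 z)) ≤
        |ev p.2 x - ev p.1 x| * (1 / (V + 1)) := by
      calc 2 * ((ev p.2 x - ev p.1 x) * (ev p.2 z - ev p.1 z))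
          ≤ 2 * |(ev p.2 x - ev p.1 x) * (ev p.2 z - ev p.1 z)| :=
            mul_le_mul_of_nonneg_left (le_abs_self _) zero_le_two
        _ = 2 * (|ev p.2 x - ev p.1 x| * |ev p.2 z - ev p.1 z|) := by rw [abs_mul]
        _ ≤ 2 * (|ev p.2 x - ev p.1 x| * (1 / (2 * (V + 1)))) := by
            apply mul_le_mul_of_nonneg_left _ zero_le_two
            exact mul_le_mul_of_nonneg_left h1 (abs_nonneg _)
        _ = |ev p.2 x - ev p.1 x| * (1 / (V + 1)) := by field_simp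
    nlinarith [h2]
  calc ∑ p ∈ P.1, (ev p.2 (x + z) - ev p.1 (x + z)) ^ 2
      ≤ ∑ p ∈ P.1, ((ev p.2 x - ev p.1 x) ^ 2 + (ev p.2 z - ev p.1 z) ^ 2
        + |ev p.2 x - ev p.1 x| * (1 / (V + 1))) := Finset.sum_le_sum key
    _ = ∑ p ∈ P.1, (ev p.2 x - ev p.1 x) ^ 2 + ∑ p ∈ P.1, (ev p.2 z - ev p.1 z) ^ 2
        + (∑ p ∈ P.1, |ev p.2 x - ev p.1 x|) * (1 / (V + 1)) := by
        rw [Finset.sum_add_distrib, Finset.sum_add_distrib, Finset.sum_mul]
    _ ≤ ‖x‖ ^ 2 + ‖z‖ ^ 2 + V * (1 / (V + 1)) := by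
        apply add_le_add (add_le_add (sum_sq_le x P) (sum_sq_le z P))
        exact mul_le_mul_of_nonneg_right (h P) (by positivity)
    _ ≤ ‖x‖ ^ 2 + ‖z‖ ^ 2 + 1 := by
        have : V * (1 / (V + 1)) ≤ 1 := by
          rw [mul_one_div, div_le_one (by positivity)]; linarith
        linarith

/-- energy of a finite family of vectors on a finite family of intervals -/
noncomputable def En (N : ℕ) (x : ℕ → JF) (P : Part) : ℝ :=
  ∑ k ∈ Finset.range N, ∑ p ∈ P.1, (ev p.2 (x k) - ev p.1 (x k)) ^ 2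

lemma En_nonneg (N : ℕ) (x : ℕ → JF) (P : Part) : 0 ≤ En N x P :=
  Finset.sum_nonneg (fun _ _ => Finset.sum_nonneg (fun _ _ => sq_nonneg _))

lemma En_le (N : ℕ) (x : ℕ → JF) (C : ℝ) (hx : ∀ k, ‖x k‖ ≤ C) (P : Part) :
    En N x P ≤ N * C ^ 2 := by
  unfold En
  calc ∑ k ∈ Finset.range N, ∑ p ∈ P.1, (ev p.2 (x k) - ev p.1 (x k)) ^ 2
      ≤ ∑ k ∈ Finset.range N, C ^ 2 := by
        apply Finset.sum_le_sum
        intro k _
        exact (sum_sq_le (x k) P).trans (pow_le_pow_left₀ (norm_nonneg _) (hx k) 2)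
    _ = N * C ^ 2 := by simp

/-- cumulative energy up to time `t` -/
noncomputable def G (N : ℕ) (x : ℕ → JF) (t : ℝ≥0) : ℝ :=
  sSup {r : ℝ | ∃ P : Part, (∀ p ∈ P.1, p.2 ≤ t) ∧ r = En N x P}

lemma G_bdd (N : ℕ) (x : ℕ → JF) (C : ℝ) (hx : ∀ k, ‖x k‖ ≤ C) (t : ℝ≥0) :
    BddAbove {r : ℝ | ∃ P : Part, (∀ p ∈ P.1, p.2 ≤ t) ∧ r = En N x P} := by
  refine ⟨N * C ^ 2, ?_⟩
  rintro _ ⟨P, _, rfl⟩
  exact En_le N x C hx P

lemma G_nonempty (N : ℕ) (x : ℕ → JF) (t : ℝ≥0) :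
    {r : ℝ | ∃ P : Part, (∀ p ∈ P.1, p.2 ≤ t) ∧ r = En N x P}.Nonempty :=
  ⟨_, ⟨∅, by simp⟩, by simp, rfl⟩

lemma G_nonneg (N : ℕ) (x : ℕ → JF) (C : ℝ) (hx : ∀ k, ‖x k‖ ≤ C) (t : ℝ≥0) :
    0 ≤ G N x t :=
  (En_nonneg N x ⟨∅, by simp⟩).trans
    (le_csSup (G_bdd N x C hx t) ⟨⟨∅, by simp⟩, by simp, rfl⟩)

lemma G_le (N : ℕ) (x : ℕ → JF) (C : ℝ) (hx : ∀ k, ‖x k‖ ≤ C) (t : ℝ≥0) :
    G N x t ≤ N * C ^ 2 := by
  apply csSup_le (G_nonempty N x t)
  rintro _ ⟨P, _, rfl⟩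
  exact En_le N x C hx P

lemma G_step (N : ℕ) (x : ℕ → JF) (C : ℝ) (hx : ∀ k, ‖x k‖ ≤ C) {s t : ℝ≥0} (hst : s < t) :
    G N x s + ∑ k ∈ Finset.range N, (ev t (x k) - ev s (x k)) ^ 2 ≤ G N x t := by
  rw [← le_sub_iff_add_le]
  apply csSup_le (G_nonempty N x s)
  rintro _ ⟨P, hP, rfl⟩
  rw [le_sub_iff_add_le]
  have hnot : (s, t) ∉ P.1 := fun h => absurd (hP _ h) (not_le.2 hst)
  let Q : Part := ⟨insert (s, t) P.1, by
    constructor
    · intro p hp
      rw [Finset.mem_insert] at hp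
      rcases hp with rfl | hp
      · exact hst.le
      · exact P.2.1 p hp
    · rw [Finset.coe_insert]
      rw [Set.pairwiseDisjoint_insert]
      refine ⟨P.2.2, ?_⟩
      intro p hp _
      change Disjoint (Set.Ico s t) (Set.Ico p.1 p.2)
      rw [Set.disjoint_left]
      intro q hq hq'
      exact absurd (hP p hp) (not_le.2 (lt_of_le_of_lt hq.1 hq'.2))⟩
  have hQ : En N x Q = En N x P + ∑ k ∈ Finset.range N, (ev t (x k) - ev s (x k)) ^ 2 := by
    unfold En
    rw [← Finset.sum_add_distrib]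
    apply Finset.sum_congr rfl
    intro k _
    change ∑ p ∈ insert (s, t) P.1, _ = _
    rw [Finset.sum_insert hnot]
    ring
  rw [← hQ]
  apply le_csSup (G_bdd N x C hx t)
  refine ⟨Q, ?_, rfl⟩
  intro p hp
  change p ∈ insert (s, t) P.1 at hp
  rw [Finset.mem_insert] at hp
  rcases hp with rfl | hp
  · exact le_rfl
  · exact (hP p hp).trans hst.le

lemma exists_net (N : ℕ) (x : ℕ → JF) (C : ℝ) (hx : ∀ k, ‖x k‖ ≤ C) (η : ℝ) (hη : 0 < η) :
    ∃ T : Finset ℝ≥0, (T.card : ℝ) ≤ N * C ^ 2 / η ^ 2 + 1 ∧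
      ∀ t, ∃ s ∈ T, ∀ k ∈ Finset.range N, |ev t (x k) - ev s (x k)| ≤ η := by
  classical
  set M : ℕ := ⌊(N * C ^ 2 / η ^ 2 : ℝ)⌋₊ with hM
  set idx : ℝ≥0 → ℕ := fun t => ⌊G N x t / η ^ 2⌋₊ with hidx
  have hη2 : 0 < η ^ 2 := by positivity
  have hle : ∀ t, idx t ≤ M := fun t =>
    Nat.floor_le_floor (div_le_div_of_nonneg_right (G_le N x C hx t) hη2.le)
  have hclose : ∀ s t, s < t → idx s = idx t → ∀ k ∈ Finset.range N,
      |ev t (x k) - ev s (x k)| ≤ η := by
    intro s t hst hi k hk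
    have h1 := G_step N x C hx hst
    have h2 : (ev t (x k) - ev s (x k)) ^ 2 ≤
        ∑ k ∈ Finset.range N, (ev t (x k) - ev s (x k)) ^ 2 :=
      Finset.single_le_sum (f := fun k => (ev t (x k) - ev s (x k)) ^ 2)
        (fun _ _ => sq_nonneg _) hk
    have h3 : G N x t / η ^ 2 < idx t + 1 := Nat.lt_floor_add_one _
    have h4 : (idx s : ℝ) ≤ G N x s / η ^ 2 :=
      Nat.floor_le (div_nonneg (G_nonneg N x C hx s) hη2.le)
    rw [hi] at h4
    rw [div_lt_iff₀ hη2] at h3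
    rw [le_div_iff₀ hη2] at h4
    have h5 : (ev t (x k) - ev s (x k)) ^ 2 ≤ η ^ 2 := by nlinarith
    exact abs_le_of_sq_le_sq h5 hη.le
  let R : Finset ℕ := (Finset.range (M + 1)).filter (fun j => ∃ t, idx t = j)
  have hR : ∀ j : {j // j ∈ R}, ∃ t, idx t = j.1 := fun j => (Finset.mem_filter.1 j.2).2
  choose rep hrep using hR
  refine ⟨Finset.univ.image rep, ?_, ?_⟩
  · have h1 : (Finset.univ.image rep).card ≤ M + 1 := by
      calc (Finset.univ.image rep).card ≤ (Finset.univ : Finset {j // j ∈ R}).card :=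
            Finset.card_image_le
        _ = R.card := by simp
        _ ≤ (Finset.range (M + 1)).card := Finset.card_filter_le _ _
        _ = M + 1 := Finset.card_range _
    have h2 : (M : ℝ) ≤ N * C ^ 2 / η ^ 2 := Nat.floor_le (by positivity)
    have h3 : ((Finset.univ.image rep).card : ℝ) ≤ (M : ℝ) + 1 := by exact_mod_cast h1
    linarith
  · intro t
    have hmem : idx t ∈ R :=
      Finset.mem_filter.2 ⟨Finset.mem_range.2 (Nat.lt_succ_of_le (hle t)), t, rfl⟩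
    refine ⟨rep ⟨idx t, hmem⟩, Finset.mem_image_of_mem _ (Finset.mem_univ _), ?_⟩
    have hs := hrep ⟨idx t, hmem⟩
    simp only at hs
    intro k hk
    rcases lt_trichotomy (rep ⟨idx t, hmem⟩) t with h | h | h
    · exact hclose _ _ h hs k hk
    · rw [h]; simp [hη.le]
    · rw [abs_sub_comm]
      exact hclose _ _ h hs.symm k hk

/-- fourth moment argument, derandomised -/
lemma signs {ι : Type} (T : Finset ι) (C : ℝ) (v : ℕ → ι → ℝ)
    (hv : ∀ k s, |v k s| ≤ C) (N : ℕ) : ∀ S : ι → ℝ,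
    ∃ θ : ℕ → ℝ, (∀ k, |θ k| = 1) ∧
      ∑ s ∈ T, (S s + ∑ k ∈ Finset.range N, θ k * v k s) ^ 4 ≤
        ∑ s ∈ T, (S s ^ 4 + 6 * N * C ^ 2 * S s ^ 2 + 3 * N ^ 2 * C ^ 4) := by
  induction N with
  | zero =>
    intro S
    refine ⟨fun _ => 1, by simp, ?_⟩
    simp
  | succ N ih =>
    intro S
    obtain ⟨θp, hp1, hp2⟩ := ih (fun s => S s + v N s)
    obtain ⟨θm, hm1, hm2⟩ := ih (fun s => S s - v N s)
    have havg : (∑ s ∈ T, ((S s + v N s) ^ 4 + 6 * N * C ^ 2 * (S s + v N s) ^ 2 + 3 * N ^ 2 * C ^ 4))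
        + (∑ s ∈ T, ((S s - v N s) ^ 4 + 6 * N * C ^ 2 * (S s - v N s) ^ 2 + 3 * N ^ 2 * C ^ 4))
        ≤ 2 * ∑ s ∈ T, (S s ^ 4 + 6 * ((N + 1 : ℕ) : ℝ) * C ^ 2 * S s ^ 2
          + 3 * ((N + 1 : ℕ) : ℝ) ^ 2 * C ^ 4) := by
      rw [← Finset.sum_add_distrib, Finset.mul_sum]
      apply Finset.sum_le_sum
      intro s _
      have h1 : (v N s) ^ 2 ≤ C ^ 2 := sq_le_sq' (abs_le.1 (hv N s)).1 (abs_le.1 (hv N s)).2
      have h2 : (v N s) ^ 4 ≤ C ^ 4 := by nlinarith [sq_nonneg (v N s), sq_nonneg C]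
      have h3 : (v N s) ^ 2 * S s ^ 2 ≤ C ^ 2 * S s ^ 2 :=
        mul_le_mul_of_nonneg_right h1 (sq_nonneg _)
      have hN : (0 : ℝ) ≤ N := Nat.cast_nonneg N
      have h4 : (N : ℝ) * (C ^ 2 * (v N s) ^ 2) ≤ N * C ^ 4 := by
        apply mul_le_mul_of_nonneg_left _ hN
        nlinarith [sq_nonneg C]
      have h5 : 0 ≤ C ^ 4 := by positivity
      push_cast
      nlinarith
    by_cases hc : (∑ s ∈ T, ((S s + v N s) ^ 4 + 6 * N * C ^ 2 * (S s + v N s) ^ 2
        + 3 * N ^ 2 * C ^ 4)) ≤ ∑ s ∈ T, (S s ^ 4 + 6 * ((N + 1 : ℕ) : ℝ) * C ^ 2 * S s ^ 2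
          + 3 * ((N + 1 : ℕ) : ℝ) ^ 2 * C ^ 4)
    · refine ⟨fun k => if k = N then 1 else θp k, ?_, ?_⟩
      · intro k
        by_cases hk : k = N
        · simp [hk]
        · simp [hk, hp1 k]
      · refine le_trans (le_of_eq ?_) (hp2.trans hc)
        apply Finset.sum_congr rfl
        intro s _
        rw [Finset.sum_range_succ]
        have : ∑ k ∈ Finset.range N, (if k = N then (1:ℝ) else θp k) * v k s
            = ∑ k ∈ Finset.range N, θp k * v k s := by
          apply Finset.sum_congr rfl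
          intro k hk
          rw [if_neg (Finset.mem_range.1 hk).ne]
        simp only [if_true]
        rw [this]
        ring
    · have hc' : (∑ s ∈ T, ((S s - v N s) ^ 4 + 6 * N * C ^ 2 * (S s - v N s) ^ 2
        + 3 * N ^ 2 * C ^ 4)) ≤ ∑ s ∈ T, (S s ^ 4 + 6 * ((N + 1 : ℕ) : ℝ) * C ^ 2 * S s ^ 2
          + 3 * ((N + 1 : ℕ) : ℝ) ^ 2 * C ^ 4) := by
        rw [not_le] at hc
        linarith
      refine ⟨fun k => if k = N then -1 else θm k, ?_, ?_⟩
      · intro k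
        by_cases hk : k = N
        · simp [hk]
        · simp [hk, hm1 k]
      · refine le_trans (le_of_eq ?_) (hm2.trans hc')
        apply Finset.sum_congr rfl
        intro s _
        rw [Finset.sum_range_succ]
        have : ∑ k ∈ Finset.range N, (if k = N then (-1:ℝ) else θm k) * v k s
            = ∑ k ∈ Finset.range N, θm k * v k s := by
          apply Finset.sum_congr rfl
          intro k hk
          rw [if_neg (Finset.mem_range.1 hk).ne]
        simp only [if_true]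
        rw [this]
        ring

lemma exists_signs (C ε : ℝ) (hε : 0 < ε) :
    ∃ N : ℕ, 0 < N ∧ ∀ x : ℕ → JF, (∀ k, ‖x k‖ ≤ C) →
      ∃ θ : ℕ → ℝ, (∀ k, |θ k| = 1) ∧
        ∀ t, |ev t (∑ k ∈ Finset.range N, θ k • x k)| ≤ ε * N := by
  obtain ⟨N, hN⟩ := exists_nat_gt (48 * (4 * C ^ 2 / ε ^ 2 + 1) * C ^ 4 / ε ^ 4)
  have hN0 : (0 : ℝ) < N := lt_of_le_of_lt (by positivity) hN
  have hN0' : 0 < N := by exact_mod_cast hN0
  have hN1 : (1 : ℝ) ≤ N := by exact_mod_cast hN0'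
  refine ⟨N, hN0', fun x hx => ?_⟩
  obtain ⟨T, hT, hnet⟩ := exists_net N x C hx (ε / 2) (by positivity)
  obtain ⟨θ, hθ, hs⟩ := signs T C (fun k s => ev s (x k))
    (fun k s => (abs_ev_le s (x k)).trans (hx k)) N (fun _ => 0)
  refine ⟨θ, hθ, ?_⟩
  have hsum : ∑ s ∈ T, (∑ k ∈ Finset.range N, θ k * ev s (x k)) ^ 4 ≤ (ε / 2 * N) ^ 4 := by
    calc ∑ s ∈ T, (∑ k ∈ Finset.range N, θ k * ev s (x k)) ^ 4
        = ∑ s ∈ T, (0 + ∑ k ∈ Finset.range N, θ k * ev s (x k)) ^ 4 := by simp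
      _ ≤ ∑ s ∈ T, ((0:ℝ) ^ 4 + 6 * N * C ^ 2 * (0:ℝ) ^ 2 + 3 * N ^ 2 * C ^ 4) := hs
      _ = T.card * (3 * N ^ 2 * C ^ 4) := by
          rw [Finset.sum_const, nsmul_eq_mul]; ring
      _ ≤ (N * C ^ 2 / (ε / 2) ^ 2 + 1) * (3 * N ^ 2 * C ^ 4) :=
          mul_le_mul_of_nonneg_right hT (by positivity)
      _ ≤ (N * (4 * C ^ 2 / ε ^ 2 + 1)) * (3 * N ^ 2 * C ^ 4) := by
          apply mul_le_mul_of_nonneg_right _ (by positivity)
          have : N * C ^ 2 / (ε / 2) ^ 2 = N * (4 * C ^ 2 / ε ^ 2) := by field_simp; norm_num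
          rw [this, mul_add]
          linarith
      _ = (3 * (4 * C ^ 2 / ε ^ 2 + 1) * C ^ 4) * N ^ 3 := by ring
      _ ≤ (ε ^ 4 / 16 * N) * N ^ 3 := by
          apply mul_le_mul_of_nonneg_right _ (by positivity)
          rw [div_lt_iff₀ (by positivity)] at hN
          nlinarith
      _ = (ε / 2 * N) ^ 4 := by ring
  have hT' : ∀ s ∈ T, |∑ k ∈ Finset.range N, θ k * ev s (x k)| ≤ ε / 2 * N := by
    intro s hs'
    have h1 : (∑ k ∈ Finset.range N, θ k * ev s (x k)) ^ 4 ≤ (ε / 2 * N) ^ 4 :=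
      (Finset.single_le_sum (f := fun s => (∑ k ∈ Finset.range N, θ k * ev s (x k)) ^ 4)
        (fun _ _ => by positivity) hs').trans hsum
    have h2 : |∑ k ∈ Finset.range N, θ k * ev s (x k)| ^ 4 ≤ (ε / 2 * N) ^ 4 := by
      rw [Even.pow_abs (by decide)]; exact h1
    exact le_of_pow_le_pow_left₀ (by norm_num) (by positivity) h2
  intro t
  obtain ⟨s, hsT, hst⟩ := hnet t
  have h1 : ev t (∑ k ∈ Finset.range N, θ k • x k) =
      ∑ k ∈ Finset.range N, θ k * ev s (x k)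
      + ∑ k ∈ Finset.range N, θ k * (ev t (x k) - ev s (x k)) := by
    rw [map_sum, ← Finset.sum_add_distrib]
    apply Finset.sum_congr rfl
    intro k _
    rw [map_smul, smul_eq_mul]; ring
  have h2 : |∑ k ∈ Finset.range N, θ k * (ev t (x k) - ev s (x k))| ≤ N * (ε / 2) := by
    calc |∑ k ∈ Finset.range N, θ k * (ev t (x k) - ev s (x k))|
        ≤ ∑ k ∈ Finset.range N, |θ k * (ev t (x k) - ev s (x k))| :=
          Finset.abs_sum_le_sum_abs _ _
      _ ≤ ∑ k ∈ Finset.range N, ε / 2 := by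
          apply Finset.sum_le_sum
          intro k hk
          rw [abs_mul, hθ, one_mul]
          exact hst k hk
      _ = N * (ε / 2) := by simp
  rw [h1]
  calc _ ≤ |∑ k ∈ Finset.range N, θ k * ev s (x k)|
      + |∑ k ∈ Finset.range N, θ k * (ev t (x k) - ev s (x k))| := abs_add_le _ _
    _ ≤ ε / 2 * N + N * (ε / 2) := add_le_add (hT' s hsT) h2
    _ = ε * N := by ring

/-- from a bounded sequence of simple vectors, long combinations with `ℓ₂` upper estimates -/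
lemma exists_comb (C : ℝ) (x : ℕ → JF) (hx : ∀ k, ‖x k‖ ≤ C)
    (hs : ∀ k, x k ∈ simpJ) (M : ℕ) :
    ∃ (K : ℕ) (a : ℕ → ℝ), (∑ k ∈ Finset.range K, |a k|) = M ∧
      ‖∑ k ∈ Finset.range K, a k • x k‖ ^ 2 ≤ M * (C ^ 2 + 1) := by
  induction M with
  | zero => exact ⟨0, fun _ => 0, by simp, by simp⟩
  | succ M ih =>
    obtain ⟨K, a, ha, hn⟩ := ih
    have hmem : (∑ k ∈ Finset.range K, a k • x k) ∈ simpJ :=
      Submodule.sum_mem _ (fun k _ => Submodule.smul_mem _ _ (hs k))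
    obtain ⟨ε, hε, hh⟩ := hump hmem
    obtain ⟨N, hN, hsg⟩ := exists_signs C ε hε
    obtain ⟨θ, hθ, hev⟩ := hsg (fun k => x (K + k)) (fun k => hx _)
    have hNr : (0:ℝ) < N := by exact_mod_cast hN
    set z : JF := (1 / (N:ℝ)) • ∑ k ∈ Finset.range N, θ k • x (K + k) with hz
    have hz1 : ∀ t, |ev t z| ≤ ε := by
      intro t
      rw [hz, map_smul, smul_eq_mul, abs_mul, abs_of_pos (by positivity : (0:ℝ) < 1 / N)]
      calc 1 / (N:ℝ) * |ev t (∑ k ∈ Finset.range N, θ k • x (K + k))|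
          ≤ 1 / (N:ℝ) * (ε * N) := mul_le_mul_of_nonneg_left (hev t) (by positivity)
        _ = ε := by field_simp
    have hz2 : ‖z‖ ≤ C := by
      rw [hz, norm_smul, Real.norm_of_nonneg (by positivity : (0:ℝ) ≤ 1 / N)]
      calc 1 / (N:ℝ) * ‖∑ k ∈ Finset.range N, θ k • x (K + k)‖
          ≤ 1 / (N:ℝ) * ∑ k ∈ Finset.range N, ‖θ k • x (K + k)‖ :=
            mul_le_mul_of_nonneg_left (norm_sum_le _ _) (by positivity)
        _ ≤ 1 / (N:ℝ) * ∑ k ∈ Finset.range N, C := by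
            apply mul_le_mul_of_nonneg_left _ (by positivity)
            apply Finset.sum_le_sum
            intro k _
            rw [norm_smul, Real.norm_eq_abs, hθ, one_mul]
            exact hx _
        _ = C := by simp; field_simp
    refine ⟨K + N, fun k => if k < K then a k else 1 / (N:ℝ) * θ (k - K), ?_, ?_⟩
    · rw [Finset.sum_range_add]
      have e1 : ∑ k ∈ Finset.range K, |if k < K then a k else 1 / (N:ℝ) * θ (k - K)|
          = M := by
        rw [← ha]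
        apply Finset.sum_congr rfl
        intro k hk
        rw [if_pos (Finset.mem_range.1 hk)]
      have e2 : ∑ k ∈ Finset.range N, |if K + k < K then a (K + k)
          else 1 / (N:ℝ) * θ (K + k - K)| = 1 := by
        calc ∑ k ∈ Finset.range N, |if K + k < K then a (K + k)
            else 1 / (N:ℝ) * θ (K + k - K)| = ∑ k ∈ Finset.range N, 1 / (N:ℝ) := by
              apply Finset.sum_congr rfl
              intro k _
              rw [if_neg (by omega), Nat.add_sub_cancel_left, abs_mul, hθ, mul_one,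
                abs_of_pos (by positivity : (0:ℝ) < 1 / N)]
          _ = 1 := by simp; field_simp
      rw [e1, e2]; push_cast; ring
    · have e1 : ∑ k ∈ Finset.range (K + N), (if k < K then a k else 1 / (N:ℝ) * θ (k - K)) • x k
          = ∑ k ∈ Finset.range K, a k • x k + z := by
        rw [Finset.sum_range_add, hz, Finset.smul_sum]
        congr 1
        · apply Finset.sum_congr rfl
          intro k hk
          rw [if_pos (Finset.mem_range.1 hk)]
        · apply Finset.sum_congr rfl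
          intro k _
          rw [if_neg (by omega), Nat.add_sub_cancel_left, smul_smul]
      rw [e1]
      calc ‖∑ k ∈ Finset.range K, a k • x k + z‖ ^ 2
          ≤ ‖∑ k ∈ Finset.range K, a k • x k‖ ^ 2 + ‖z‖ ^ 2 + 1 := hh z hz1
        _ ≤ M * (C ^ 2 + 1) + C ^ 2 + 1 := by
            have := pow_le_pow_left₀ (norm_nonneg _) hz2 2
            linarith
        _ = ((M + 1 : ℕ) : ℝ) * (C ^ 2 + 1) := by push_cast; ring

/-- `JF` contains no isomorphic copy of `ℓ₁`. -/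
theorem no_l1 : ¬ ∃ (T : lp (fun _ : ℕ => ℝ) (1 : ENNReal) →L[ℝ] JF) (c : ℝ),
    0 < c ∧ ∀ y, c * ‖y‖ ≤ ‖T y‖ := by
  rintro ⟨T, c, hc, hT⟩
  let u : ℕ → lp (fun _ : ℕ => ℝ) (1 : ENNReal) := fun n => lp.single 1 n (1:ℝ)
  have hu : ∀ n, ‖u n‖ = 1 := by
    intro n
    simp only [u]
    rw [lp.norm_single (by norm_num)]
    simp
  have hcomb : ∀ (K : ℕ) (a : ℕ → ℝ), ‖∑ k ∈ Finset.range K, a k • u k‖
      = ∑ k ∈ Finset.range K, |a k| := by
    intro K a
    have h1 : ∑ k ∈ Finset.range K, a k • u k = ∑ k ∈ Finset.range K, lp.single 1 k (a k) := by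
      apply Finset.sum_congr rfl
      intro k _
      simp only [u]
      rw [← lp.single_smul]; simp
    rw [h1]
    have h2 := lp.norm_sum_single (E := fun _ : ℕ => ℝ) (p := 1) (by norm_num) a (Finset.range K)
    simpa using h2
  choose x hx1 hx2 using fun n => exists_simp_near (T (u n)) (c / 2) (by positivity)
  have hbd : ∀ k, ‖x k‖ ≤ ‖T‖ + c / 2 := by
    intro k
    have h1 : ‖T (u k)‖ ≤ ‖T‖ := by
      have := T.le_opNorm (u k)
      rwa [hu, mul_one] at this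
    have h2 := norm_sub_norm_le (x k) (T (u k))
    rw [norm_sub_rev] at h2
    have h3 := hx2 k
    linarith
  have hlow : ∀ (K : ℕ) (a : ℕ → ℝ), c / 2 * ∑ k ∈ Finset.range K, |a k|
      ≤ ‖∑ k ∈ Finset.range K, a k • x k‖ := by
    intro K a
    have h1 : c * ∑ k ∈ Finset.range K, |a k| ≤ ‖∑ k ∈ Finset.range K, a k • T (u k)‖ := by
      rw [← hcomb]
      have := hT (∑ k ∈ Finset.range K, a k • u k)
      rwa [map_sum, Finset.sum_congr rfl (fun k _ => T.map_smul (a k) (u k))] at this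
    have h2 : ‖∑ k ∈ Finset.range K, a k • T (u k) - ∑ k ∈ Finset.range K, a k • x k‖
        ≤ c / 2 * ∑ k ∈ Finset.range K, |a k| := by
      rw [← Finset.sum_sub_distrib, Finset.mul_sum]
      apply (norm_sum_le _ _).trans
      apply Finset.sum_le_sum
      intro k _
      rw [← smul_sub, norm_smul, Real.norm_eq_abs, mul_comm]
      exact mul_le_mul_of_nonneg_right (hx2 k).le (abs_nonneg _)
    have h3 := norm_sub_norm_le (∑ k ∈ Finset.range K, a k • T (u k))
      (∑ k ∈ Finset.range K, a k • x k)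
    nlinarith
  set C := ‖T‖ + c / 2 with hCdef
  have hC : 0 ≤ C := by positivity
  obtain ⟨M, hM⟩ := exists_nat_gt ((C ^ 2 + 1) / (c / 2) ^ 2)
  obtain ⟨K, a, ha, hn⟩ := exists_comb C x hbd hx1 M
  have h1 := hlow K a
  rw [ha] at h1
  have hMpos : (0:ℝ) < M := lt_of_le_of_lt (by positivity) hM
  have h2 : (c / 2 * M) ^ 2 ≤ M * (C ^ 2 + 1) :=
    (pow_le_pow_left₀ (by positivity) h1 2).trans hn
  rw [div_lt_iff₀ (by positivity)] at hM
  nlinarith

/-- the convex set of vectors whose evaluation jumps from `0` to `1` inside `(a, b)` -/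
def D (a b : ℝ≥0) : Set JF := {x | (∀ s ≤ a, ev s x = 0) ∧ (∀ s, b ≤ s → ev s x = 1)}

lemma D_mono {a b a' b' : ℝ≥0} (h1 : a' ≤ a) (h2 : b ≤ b') : D a b ⊆ D a' b' :=
  fun _ hx => ⟨fun s hs => hx.1 s (hs.trans h1), fun s hs => hx.2 s (h2.trans hs)⟩

lemma D_mid {a b : ℝ≥0} {x y : JF} (hx : x ∈ D a b) (hy : y ∈ D a b) :
    (1 / 2 : ℝ) • (x + y) ∈ D a b := by
  constructor
  · intro s hs
    rw [map_smul, map_add, hx.1 s hs, hy.1 s hs]; simp
  · intro s hs
    rw [map_smul, map_add, hx.2 s hs, hy.2 s hs]; norm_num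

lemma exists_e_mem_D {a b : ℝ≥0} (h : a < b) : ∃ n, e n ∈ D a b := by
  have hd : Dense (Set.range (TopologicalSpace.denseSeq ℝ≥0)) :=
    TopologicalSpace.denseRange_denseSeq ℝ≥0
  obtain ⟨q, hq, hab⟩ := hd.exists_between h
  obtain ⟨n, hn⟩ := hq
  refine ⟨n, ?_, ?_⟩
  · intro s hs
    rw [ev_e, if_neg]
    rw [not_lt]
    exact hs.trans (by unfold pos; rw [hn]; exact hab.1.le)
  · intro s hs
    rw [ev_e, if_pos]
    exact lt_of_lt_of_le (by unfold pos; rw [hn]; exact hab.2) hs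

lemma countable_bad_right (m : ℝ≥0 → ℝ) :
    {t : ℝ≥0 | ∃ b, t < b ∧ ∃ ε > 0, ∀ u, t < u → u < b → m t + ε ≤ m u}.Countable := by
  have h : ∀ n : ℕ, Set.Countable {x ∈ Set.Iio (pos n) |
      ∃ z, m x < z ∧ ∀ y ∈ Set.Iio (pos n), x < y → z ≤ m y} :=
    fun n => countable_image_lt_image_Ioi_within _ m
  apply (Set.countable_iUnion h).mono
  rintro t ⟨b, htb, ε, hε, hu⟩
  have hd : Dense (Set.range (TopologicalSpace.denseSeq ℝ≥0)) :=
    TopologicalSpace.denseRange_denseSeq ℝ≥0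
  obtain ⟨q, ⟨n, hn⟩, hab⟩ := hd.exists_between htb
  rw [Set.mem_iUnion]
  refine ⟨n, ?_, m t + ε, by linarith, ?_⟩
  · unfold pos; rw [hn]; exact hab.1
  · intro y hy hty
    apply hu y hty
    have : y < q := by unfold pos at hy; rw [hn] at hy; exact hy
    exact this.trans hab.2

lemma countable_bad_left (m : ℝ≥0 → ℝ) :
    {t : ℝ≥0 | ∃ a, a < t ∧ ∃ ε > 0, ∀ u, a < u → u < t → m t + ε ≤ m u}.Countable := by
  have h : ∀ n : ℕ, Set.Countable {x : ℝ≥0 | x ∈ Set.Ioi (pos n) ∧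
      ∃ z < -m x, ∀ y ∈ Set.Ioi (pos n), y < x → -m y ≤ z} :=
    fun n => countable_image_lt_image_Iio_within (Set.Ioi (pos n)) (fun x => -m x)
  apply (Set.countable_iUnion h).mono
  rintro t ⟨a, hat, ε, hε, hu⟩
  have hd : Dense (Set.range (TopologicalSpace.denseSeq ℝ≥0)) :=
    TopologicalSpace.denseRange_denseSeq ℝ≥0
  obtain ⟨q, ⟨n, hn⟩, hab⟩ := hd.exists_between hat
  rw [Set.mem_iUnion]
  refine ⟨n, ?_, -(m t + ε), by linarith, ?_⟩
  · unfold pos; rw [hn]; exact hab.2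
  · intro y hy hyt
    have h1 : q < y := by unfold pos at hy; rw [hn] at hy; exact hy
    have h2 := hu y (hab.1.trans h1) hyt
    linarith

lemma not_countable_Ioi : ¬ (Set.Ioi (0 : ℝ≥0)).Countable := by
  intro h
  have h2 := h.image (fun x : ℝ≥0 => (x : ℝ))
  have h3 : (Set.Ioo (0:ℝ) 1).Countable := by
    apply h2.mono
    intro x hx
    exact ⟨⟨x, hx.1.le⟩, hx.1, rfl⟩
  rw [← Cardinal.le_aleph0_iff_set_countable, Cardinal.mk_Ioo_real zero_lt_one] at h3
  exact absurd h3 (not_le.2 Cardinal.aleph0_lt_continuum)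

/-- `JF` admits no equivalent weakly Cauchy rotund norm. -/
theorem no_wcr : ¬ ∃ (p : Seminorm ℝ JF) (a b : ℝ), 0 < a ∧ 0 < b ∧
    (∀ x : JF, a * ‖x‖ ≤ p x ∧ p x ≤ b * ‖x‖) ∧
    ∀ u : ℕ → JF, (∀ n, p (u n) = 1) →
      Tendsto (fun k : ℕ × ℕ => p (u k.1 + u k.2)) atTop (𝓝 2) →
      ∀ f : JF →L[ℝ] ℝ, CauchySeq (fun n => f (u n)) := by
  rintro ⟨p, a, b, ha, hb, hab, hW⟩
  -- the asymptotic cost of a jump at `t`
  let S : ℝ≥0 → Set ℝ := fun t => {r | ∃ α β, α < t ∧ t < β ∧ ∀ x ∈ D α β, r ≤ p x}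
  let m : ℝ≥0 → ℝ := fun t => sSup (S t)
  have hDa : ∀ α β, ∀ x ∈ D α β, a ≤ p x := by
    intro α β x hx
    have h1 := abs_ev_le β x
    rw [hx.2 β le_rfl, abs_one] at h1
    calc a = a * 1 := (mul_one a).symm
      _ ≤ a * ‖x‖ := mul_le_mul_of_nonneg_left h1 ha.le
      _ ≤ p x := (hab x).1
  have hSb : ∀ t, BddAbove (S t) := by
    intro t
    refine ⟨b, ?_⟩
    rintro r ⟨α, β, h1, h2, h3⟩
    obtain ⟨n, hn⟩ := exists_e_mem_D (h1.trans h2)
    calc r ≤ p (e n) := h3 _ hn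
      _ ≤ b * ‖e n‖ := (hab _).2
      _ ≤ b * 1 := mul_le_mul_of_nonneg_left (norm_e_le n) hb.le
      _ = b := mul_one b
  have hSa : ∀ t, 0 < t → a ∈ S t := fun t ht => ⟨0, t + 1, ht, lt_add_one t, hDa _ _⟩
  have hma : ∀ t, 0 < t → a ≤ m t := fun t ht => le_csSup (hSb t) (hSa t ht)
  have hlo : ∀ t, 0 < t → ∀ r, r < m t → ∃ α β, α < t ∧ t < β ∧ ∀ x ∈ D α β, r ≤ p x := by
    intro t ht r hr
    obtain ⟨r', ⟨α, β, h1, h2, h3⟩, hrr⟩ := exists_lt_of_lt_csSup ⟨a, hSa t ht⟩ hr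
    exact ⟨α, β, h1, h2, fun x hx => hrr.le.trans (h3 x hx)⟩
  have hhi : ∀ t r α β, m t < r → α < t → t < β → ∃ x ∈ D α β, p x < r := by
    intro t r α β hr h1 h2
    by_contra hcon
    push Not at hcon
    have : r ≤ m t := le_csSup (hSb t) ⟨α, β, h1, h2, hcon⟩
    linarith
  -- a good point
  obtain ⟨t, ht0, htR, htL⟩ : ∃ t : ℝ≥0, 0 < t ∧
      t ∉ {t : ℝ≥0 | ∃ b, t < b ∧ ∃ ε > 0, ∀ u, t < u → u < b → m t + ε ≤ m u} ∧
      t ∉ {t : ℝ≥0 | ∃ a, a < t ∧ ∃ ε > 0, ∀ u, a < u → u < t → m t + ε ≤ m u} := by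
    by_contra hcon
    push Not at hcon
    apply not_countable_Ioi
    apply ((countable_bad_right m).union (countable_bad_left m)).mono
    intro t ht
    by_cases h : t ∈ {t : ℝ≥0 | ∃ b, t < b ∧ ∃ ε > 0, ∀ u, t < u → u < b → m t + ε ≤ m u}
    · exact Or.inl h
    · exact Or.inr (hcon t ht h)
  have hR : ∀ α β ε, α < t → t < β → 0 < ε → ∃ x ∈ D α β, p x < m t + ε ∧ ev t x = 0 := by
    intro α β ε h1 h2 hε
    simp only [Set.mem_ofPred_eq, not_exists, not_and, not_forall, not_le] at htR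
    obtain ⟨u, hu1, hu2, hu3⟩ := htR β h2 ε hε
    obtain ⟨x, hx, hpx⟩ := hhi u (m t + ε) t β hu3 hu1 hu2
    exact ⟨x, D_mono h1.le le_rfl hx, hpx, hx.1 t le_rfl⟩
  have hL : ∀ α β ε, α < t → t < β → 0 < ε → ∃ x ∈ D α β, p x < m t + ε ∧ ev t x = 1 := by
    intro α β ε h1 h2 hε
    simp only [Set.mem_ofPred_eq, not_exists, not_and, not_forall, not_le] at htL
    obtain ⟨u, hu1, hu2, hu3⟩ := htL α h1 ε hε
    obtain ⟨x, hx, hpx⟩ := hhi u (m t + ε) α t hu3 hu1 hu2
    exact ⟨x, D_mono le_rfl h2.le hx, hpx, hx.2 t le_rfl⟩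
  -- sequences approaching `t`
  have hmt : 0 < m t := lt_of_lt_of_le ha (hma t ht0)
  obtain ⟨A, hAmono, hAlt, hAlim⟩ := exists_seq_strictMono_tendsto' ht0
  obtain ⟨B, hBanti, hBgt, hBlim⟩ := exists_seq_strictAnti_tendsto' (lt_add_one t)
  have hex : ∀ n : ℕ, ∃ x ∈ D (A n) (B n), p x < m t + 1 / ((n:ℝ) + 1) ∧
      ev t x = if Even n then 0 else 1 := by
    intro n
    by_cases hn : Even n
    · simp only [hn, if_true]
      exact hR _ _ _ (hAlt n).2 (hBgt n).1 (by positivity)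
    · simp only [hn, if_false]
      exact hL _ _ _ (hAlt n).2 (hBgt n).1 (by positivity)
  choose x hxD hxp hxe using hex
  have hpos : ∀ n, 0 < p (x n) := fun n => lt_of_lt_of_le ha (hDa _ _ _ (hxD n))
  -- lower bound for sums
  have hsum : ∀ r, r < m t → ∃ n₀, ∀ i j, n₀ ≤ i → n₀ ≤ j → 2 * r ≤ p (x i + x j) := by
    intro r hr
    obtain ⟨α, β, h1, h2, h3⟩ := hlo t ht0 r hr
    have e1 : ∀ᶠ n in atTop, α < A n := hAlim.eventually (lt_mem_nhds h1)
    have e2 : ∀ᶠ n in atTop, B n < β := hBlim.eventually (gt_mem_nhds h2)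
    obtain ⟨n₀, hn₀⟩ := eventually_atTop.1 (e1.and e2)
    refine ⟨n₀, fun i j hi hj => ?_⟩
    have hi' : x i ∈ D α β := D_mono (hn₀ i hi).1.le (hn₀ i hi).2.le (hxD i)
    have hj' : x j ∈ D α β := D_mono (hn₀ j hj).1.le (hn₀ j hj).2.le (hxD j)
    have h4 := h3 _ (D_mid hi' hj')
    rw [map_smul_eq_mul, Real.norm_of_nonneg (by norm_num : (0:ℝ) ≤ 1 / 2)] at h4
    linarith
  have hlow1 : ∀ r, r < m t → ∃ n₀, ∀ i, n₀ ≤ i → r ≤ p (x i) := by
    intro r hr
    obtain ⟨n₀, h⟩ := hsum r hr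
    refine ⟨n₀, fun i hi => ?_⟩
    have h1 := h i i hi hi
    have h2 := map_add_le_add p (x i) (x i)
    linarith
  have hlim : Tendsto (fun n => p (x n)) atTop (𝓝 (m t)) := by
    rw [tendsto_order]
    constructor
    · intro r hr
      obtain ⟨r', hr1, hr2⟩ := exists_between hr
      obtain ⟨n₀, h⟩ := hlow1 r' hr2
      filter_upwards [eventually_ge_atTop n₀] with n hn
      exact lt_of_lt_of_le hr1 (h n hn)
    · intro r hr
      have h1 : Tendsto (fun n : ℕ => m t + 1 / ((n:ℝ) + 1)) atTop (𝓝 (m t + 0)) :=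
        tendsto_const_nhds.add tendsto_one_div_add_atTop_nhds_zero_nat
      rw [add_zero] at h1
      filter_upwards [h1.eventually (gt_mem_nhds hr)] with n hn
      exact (hxp n).trans hn
  -- normalised sequence
  let w : ℕ → JF := fun n => (p (x n))⁻¹ • x n
  have hw1 : ∀ n, p (w n) = 1 := by
    intro n
    simp only [w]
    rw [map_smul_eq_mul, norm_inv, Real.norm_of_nonneg (hpos n).le]
    exact inv_mul_cancel₀ (hpos n).ne'
  have hdiff : ∀ n, p (w n - (m t)⁻¹ • x n) = |1 - (m t)⁻¹ * p (x n)| := by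
    intro n
    simp only [w]
    rw [← sub_smul, map_smul_eq_mul, Real.norm_eq_abs]
    nth_rewrite 2 [← abs_of_pos (hpos n)]
    rw [← abs_mul, sub_mul, inv_mul_cancel₀ (hpos n).ne']
  have hdlim : Tendsto (fun n => |1 - (m t)⁻¹ * p (x n)|) atTop (𝓝 0) := by
    have h1 : Tendsto (fun n => |1 - (m t)⁻¹ * p (x n)|) atTop (𝓝 |1 - (m t)⁻¹ * m t|) :=
      (tendsto_const_nhds.sub (tendsto_const_nhds.mul hlim)).abs
    rwa [inv_mul_cancel₀ hmt.ne', sub_self, abs_zero] at h1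
  have hW2 : Tendsto (fun k : ℕ × ℕ => p (w k.1 + w k.2)) atTop (𝓝 2) := by
    rw [tendsto_order]
    constructor
    · intro r hr
      -- choose parameters
      set δ : ℝ := (2 - r) / 4 with hδ
      have hδ0 : 0 < δ := by rw [hδ]; linarith
      obtain ⟨n₁, hn₁⟩ := hsum (m t * (1 - δ)) (by nlinarith)
      obtain ⟨n₂, hn₂⟩ := eventually_atTop.1 (hdlim.eventually (gt_mem_nhds hδ0))
      rw [eventually_atTop]
      refine ⟨(max n₁ n₂, max n₁ n₂), ?_⟩
      rintro ⟨i, j⟩ ⟨hi, hj⟩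
      simp only at hi hj
      have hi1 := (le_max_left n₁ n₂).trans hi
      have hi2 := (le_max_right n₁ n₂).trans hi
      have hj1 := (le_max_left n₁ n₂).trans hj
      have hj2 := (le_max_right n₁ n₂).trans hj
      have h1 := hn₁ i j hi1 hj1
      have h2 := hn₂ i hi2
      have h3 := hn₂ j hj2
      rw [← hdiff] at h2 h3
      have h4 : p ((m t)⁻¹ • (x i + x j)) = (m t)⁻¹ * p (x i + x j) := by
        rw [map_smul_eq_mul, norm_inv, Real.norm_of_nonneg hmt.le]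
      have h5 : 2 * (1 - δ) ≤ p ((m t)⁻¹ • (x i + x j)) := by
        rw [h4, inv_mul_eq_div, le_div_iff₀ hmt]
        linarith
      have h6 : (m t)⁻¹ • (x i + x j) = (w i + w j) - (w i - (m t)⁻¹ • x i)
          - (w j - (m t)⁻¹ • x j) := by
        rw [smul_add]; abel
      have h7 : p ((m t)⁻¹ • (x i + x j)) ≤ p (w i + w j) + p (w i - (m t)⁻¹ • x i)
          + p (w j - (m t)⁻¹ • x j) := by
        rw [h6]
        exact (map_sub_le_add p _ _).trans (add_le_add (map_sub_le_add p _ _) le_rfl)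
      change r < p (w i + w j)
      have h8 : r = 2 - 4 * δ := by rw [hδ]; ring
      linarith
    · intro r hr
      filter_upwards with k
      have h1 := map_add_le_add p (w k.1) (w k.2)
      rw [hw1, hw1] at h1
      linarith
  have hC := hW w hw1 hW2 (ev t)
  -- contradiction: values alternate
  have hub : ∀ n, p (x n) ≤ m t + 1 := by
    intro n
    have h1 := hxp n
    have h2 : 1 / ((n:ℝ) + 1) ≤ 1 := by
      rw [div_le_one (by positivity)]
      have : (0:ℝ) ≤ n := Nat.cast_nonneg n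
      linarith
    linarith
  rw [Metric.cauchySeq_iff] at hC
  obtain ⟨N, hN⟩ := hC (1 / (m t + 1)) (by positivity)
  have h1 := hN (2 * N) (by simp only [ge_iff_le]; omega) (2 * N + 1) (by simp only [ge_iff_le]; omega)
  have h2 : ev t (w (2 * N)) = 0 := by
    simp only [w]
    rw [map_smul, hxe, if_pos (even_two_mul N)]; simp
  have h3 : ev t (w (2 * N + 1)) = (p (x (2 * N + 1)))⁻¹ := by
    simp only [w]
    rw [map_smul, hxe, if_neg]
    · simp
    · rw [Nat.not_even_iff_odd]; exact odd_two_mul_add_one N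
  rw [h2, h3, Real.dist_eq, zero_sub, abs_neg, abs_of_pos (inv_pos.2 (hpos _)),
    ← one_div, div_lt_div_iff₀ (hpos _) (by positivity)] at h1
  have := hub (2 * N + 1)
  linarith

end Pool.Agent.Lib.P7de1bc
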