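import Pool.Agent.Lib.P7de1bc.JF

/-!
# The James function space over a real or complex scalar field

`JFK 𝕜` is the version of the space `JF` over an arbitrary `RCLike` field, with the same two
properties; the failure of the rotundity is given in a strong form (all convex combinations of the
tails of one sequence of unit vectors have norm close to one, while one functional does not
converge along the sequence).
-/

set_option autoImplicit false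
open Filter Topology Set
open scoped NNReal ENNReal

namespace Pool.Agent.Lib.P7de1bc.K

variable (𝕜 : Type) [RCLike 𝕜]

/-- The fibre over a finite family of intervals. -/
abbrev Fib (P : Part) : Type := EuclideanSpace 𝕜 {p // p ∈ P.1}

/-- The ambient Banach space. -/
abbrev Amb : Type := lp (Fib 𝕜) ∞

lemma genNorm (q : ℝ≥0) (P : Part) :
    ‖(WithLp.toLp 2 (fun p => if q ∈ Set.Ico p.1.1 p.1.2 then (1:𝕜) else 0) : Fib 𝕜 P)‖ ≤ 1 := by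
  rw [EuclideanSpace.norm_eq]
  rw [Real.sqrt_le_one]
  have h1 : (∑ i : {p // p ∈ P.1}, ‖(if q ∈ Set.Ico i.1.1 i.1.2 then (1:𝕜) else 0)‖ ^ 2)
      = ((Finset.univ.filter (fun i : {p // p ∈ P.1} => q ∈ Set.Ico i.1.1 i.1.2)).card : ℝ) := by
    rw [Finset.card_filter]
    push_cast
    apply Finset.sum_congr rfl
    intro i _
    split_ifs <;> simp
  have h2 : (Finset.univ.filter (fun i : {p // p ∈ P.1} => q ∈ Set.Ico i.1.1 i.1.2)).card ≤ 1 := by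
    apply Finset.card_le_one.2
    intro a ha b hb
    simp only [Finset.mem_filter, Finset.mem_univ, true_and] at ha hb
    by_contra hab
    have hab' : a.1 ≠ b.1 := fun h => hab (Subtype.ext h)
    have := P.2.2 a.2 b.2 hab'
    exact (Set.disjoint_left.1 this ha hb)
  calc _ = ((Finset.univ.filter (fun i : {p // p ∈ P.1} => q ∈ Set.Ico i.1.1 i.1.2)).card : ℝ) := h1
    _ ≤ 1 := by exact_mod_cast h2

/-- The generator: unit mass at `q`. -/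
noncomputable def gen (q : ℝ≥0) : Amb 𝕜 :=
  ⟨fun P => WithLp.toLp 2 (fun p => if q ∈ Set.Ico p.1.1 p.1.2 then (1:𝕜) else 0), by
    apply memℓp_infty
    refine ⟨1, ?_⟩
    rintro _ ⟨P, rfl⟩
    exact genNorm 𝕜 q P⟩

lemma gen_apply (q : ℝ≥0) (P : Part) (p : {p // p ∈ P.1}) :
    (gen 𝕜 q P) p = if q ∈ Set.Ico p.1.1 p.1.2 then (1:𝕜) else 0 := rfl

lemma norm_gen_le (q : ℝ≥0) : ‖gen 𝕜 q‖ ≤ 1 := by
  apply lp.norm_le_of_forall_le zero_le_one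
  intro P
  exact genNorm 𝕜 q P

/-- The simple vectors. -/
noncomputable def simp0 : Submodule 𝕜 (Amb 𝕜) :=
  Submodule.span 𝕜 (Set.range (fun n : ℕ => gen 𝕜 (pos n)))

/-- The James function space (step function model). -/
noncomputable def JFs : Submodule 𝕜 (Amb 𝕜) := (simp0 𝕜).topologicalClosure

/-- The James function space over `𝕜`. -/
abbrev JFK : Type := JFs 𝕜

/-- coordinate functional on ambient -/
noncomputable def coord (P : Part) (p : {p // p ∈ P.1}) : Amb 𝕜 →L[𝕜] 𝕜 :=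
  LinearMap.mkContinuous
    { toFun := fun x => x P p
      map_add' := fun x y => by simp
      map_smul' := fun c x => by simp } 1 (by
    intro x
    rw [one_mul]
    exact (PiLp.norm_apply_le (x P) p).trans (lp.norm_apply_le_norm (by simp) x P))

lemma coord_apply (P : Part) (p : {p // p ∈ P.1}) (x : Amb 𝕜) : coord 𝕜 P p x = x P p := rfl

/-- evaluation on ambient -/
noncomputable def evA (t : ℝ≥0) : Amb 𝕜 →L[𝕜] 𝕜 := coord 𝕜 (sing t) ⟨(⊥, t), by simp [sing]⟩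

lemma norm_coord_le (P : Part) (p : {p // p ∈ P.1}) (x : Amb 𝕜) : ‖coord 𝕜 P p x‖ ≤ ‖x‖ := by
  rw [coord_apply]
  exact (PiLp.norm_apply_le (x P) p).trans (lp.norm_apply_le_norm (by simp) x P)

lemma norm_evA_le (t : ℝ≥0) (x : Amb 𝕜) : ‖evA 𝕜 t x‖ ≤ ‖x‖ := norm_coord_le _ _ _ _

lemma evA_gen (t q : ℝ≥0) : evA 𝕜 t (gen 𝕜 q) = if q < t then 1 else 0 := by
  unfold evA
  rw [coord_apply, gen_apply]
  simp

/-- the linear relation satisfied by all elements of `JFK`. -/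
lemma coord_eq_of_mem {x : Amb 𝕜} (hx : x ∈ JFs 𝕜) (P : Part) (p : {p // p ∈ P.1}) :
    coord 𝕜 P p x = evA 𝕜 p.1.2 x - evA 𝕜 p.1.1 x := by
  have hcl : IsClosed {x : Amb 𝕜 | coord 𝕜 P p x = evA 𝕜 p.1.2 x - evA 𝕜 p.1.1 x} :=
    isClosed_eq (coord 𝕜 P p).continuous ((evA 𝕜 _).continuous.sub (evA 𝕜 _).continuous)
  have hsub : (simp0 𝕜 : Set (Amb 𝕜)) ⊆
      {x : Amb 𝕜 | coord 𝕜 P p x = evA 𝕜 p.1.2 x - evA 𝕜 p.1.1 x} := by
    intro y hy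
    refine Submodule.span_induction ?_ ?_ ?_ ?_ hy
    · rintro _ ⟨n, rfl⟩
      simp only [Set.mem_ofPred_eq]
      rw [evA_gen, evA_gen, coord_apply, gen_apply]
      have hle := P.2.1 p.1 p.2
      simp only [Set.mem_Ico]
      by_cases h1 : pos n < p.1.1
      · have h2 : pos n < p.1.2 := lt_of_lt_of_le h1 hle
        simp [h1, h2, not_le.2 h1]
      · by_cases h2 : pos n < p.1.2
        · simp [h1, h2, not_lt.1 h1]
        · simp [h1, h2]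
    · simp
    · intro x y _ _ hx hy
      simp only [Set.mem_ofPred_eq] at *
      rw [map_add, map_add, map_add, hx, hy]; ring
    · intro a x _ hx
      simp only [Set.mem_ofPred_eq] at *
      rw [map_smul, map_smul, map_smul, hx]; simp only [smul_eq_mul]; ring
  exact closure_minimal hsub hcl hx

instance : CompleteSpace (JFK 𝕜) := by
  unfold JFK JFs
  infer_instance

instance : TopologicalSpace.SeparableSpace (JFK 𝕜) := by
  have h : TopologicalSpace.IsSeparable (JFs 𝕜 : Set (Amb 𝕜)) := by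
    have h1 : TopologicalSpace.IsSeparable (Set.range (fun n : ℕ => gen 𝕜 (pos n))) :=
      (Set.countable_range _).isSeparable
    have h2 : TopologicalSpace.IsSeparable (simp0 𝕜 : Set (Amb 𝕜)) := h1.span
    exact h2.closure
  exact h.separableSpace

/-- evaluation functional at time `t` -/
noncomputable def ev (t : ℝ≥0) : JFK 𝕜 →L[𝕜] 𝕜 := (evA 𝕜 t).comp (JFs 𝕜).subtypeL

lemma ev_apply (t : ℝ≥0) (x : JFK 𝕜) : ev 𝕜 t x = evA 𝕜 t (x : Amb 𝕜) := rfl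

lemma norm_ev_le (t : ℝ≥0) (x : JFK 𝕜) : ‖ev 𝕜 t x‖ ≤ ‖x‖ := norm_evA_le 𝕜 t x

lemma norm_fib_sq (x : JFK 𝕜) (P : Part) :
    ‖(x : Amb 𝕜) P‖ ^ 2 = ∑ p ∈ P.1, ‖ev 𝕜 p.2 x - ev 𝕜 p.1 x‖ ^ 2 := by
  rw [EuclideanSpace.norm_sq_eq]
  rw [← Finset.sum_coe_sort P.1 (fun p => ‖ev 𝕜 p.2 x - ev 𝕜 p.1 x‖ ^ 2)]
  apply Finset.sum_congr rfl
  intro p _
  have := coord_eq_of_mem 𝕜 x.2 P p
  rw [coord_apply] at this
  rw [this]; rfl

lemma sum_sq_le (x : JFK 𝕜) (P : Part) :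
    ∑ p ∈ P.1, ‖ev 𝕜 p.2 x - ev 𝕜 p.1 x‖ ^ 2 ≤ ‖x‖ ^ 2 := by
  rw [← norm_fib_sq]
  have h : ‖(x : Amb 𝕜) P‖ ≤ ‖x‖ := lp.norm_apply_le_norm (by simp) (x : Amb 𝕜) P
  exact pow_le_pow_left₀ (norm_nonneg _) h 2

lemma norm_sq_le_of (x : JFK 𝕜) (C : ℝ)
    (h : ∀ P : Part, ∑ p ∈ P.1, ‖ev 𝕜 p.2 x - ev 𝕜 p.1 x‖ ^ 2 ≤ C) : ‖x‖ ^ 2 ≤ C := by
  have hC : 0 ≤ C := le_trans (Finset.sum_nonneg (fun _ _ => sq_nonneg _)) (h (sing 0))
  have h2 : ‖x‖ ≤ Real.sqrt C := by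
    change ‖(x : Amb 𝕜)‖ ≤ _
    apply lp.norm_le_of_forall_le (Real.sqrt_nonneg _)
    intro P
    apply Real.le_sqrt_of_sq_le
    rw [norm_fib_sq]
    exact h P
  calc ‖x‖ ^ 2 ≤ (Real.sqrt C) ^ 2 := pow_le_pow_left₀ (norm_nonneg _) h2 2
    _ = C := Real.sq_sqrt hC

/-- simple unit vector in `JFK` -/
noncomputable def e (n : ℕ) : JFK 𝕜 :=
  ⟨gen 𝕜 (pos n), (simp0 𝕜).le_topologicalClosure (Submodule.subset_span ⟨n, rfl⟩)⟩

lemma norm_e_le (n : ℕ) : ‖e 𝕜 n‖ ≤ 1 := norm_gen_le 𝕜 _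

lemma ev_e (t : ℝ≥0) (n : ℕ) : ev 𝕜 t (e 𝕜 n) = if pos n < t then 1 else 0 :=
  evA_gen 𝕜 t (pos n)

/-- The dense subspace of simple vectors of `JFK`. -/
noncomputable def simpJ : Submodule 𝕜 (JFK 𝕜) := Submodule.comap (JFs 𝕜).subtype (simp0 𝕜)

lemma exists_simp_near (x : JFK 𝕜) (ε : ℝ) (hε : 0 < ε) :
    ∃ y : JFK 𝕜, y ∈ simpJ 𝕜 ∧ ‖x - y‖ < ε := by
  have hx : (x : Amb 𝕜) ∈ closure (simp0 𝕜 : Set (Amb 𝕜)) := x.2
  rw [Metric.mem_closure_iff] at hx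
  obtain ⟨b, hb, hd⟩ := hx ε hε
  refine ⟨⟨b, (simp0 𝕜).le_topologicalClosure hb⟩, hb, ?_⟩
  rw [dist_eq_norm] at hd
  exact hd

/-- bounded variation property -/
def BV (x : Amb 𝕜) : Prop :=
  ∃ V : ℝ, 0 ≤ V ∧ ∀ P : Part, ∑ p : {p // p ∈ P.1}, ‖coord 𝕜 P p x‖ ≤ V

lemma bv_gen (q : ℝ≥0) : BV 𝕜 (gen 𝕜 q) := by
  refine ⟨1, zero_le_one, ?_⟩
  intro P
  have h1 : ∑ p : {p // p ∈ P.1}, ‖coord 𝕜 P p (gen 𝕜 q)‖ = ‖(gen 𝕜 q) P‖ ^ 2 := by
    rw [EuclideanSpace.norm_sq_eq]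
    apply Finset.sum_congr rfl
    intro p _
    rw [coord_apply, gen_apply]
    split_ifs <;> simp
  rw [h1]
  have h2 : ‖(gen 𝕜 q) P‖ ≤ 1 := genNorm 𝕜 q P
  calc ‖(gen 𝕜 q) P‖ ^ 2 ≤ 1 ^ 2 := pow_le_pow_left₀ (norm_nonneg _) h2 2
    _ = 1 := one_pow 2

lemma bv_simp {x : Amb 𝕜} (hx : x ∈ simp0 𝕜) : BV 𝕜 x := by
  refine Submodule.span_induction ?_ ?_ ?_ ?_ hx
  · rintro _ ⟨n, rfl⟩
    exact bv_gen 𝕜 _
  · exact ⟨0, le_rfl, fun P => by simp⟩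
  · rintro x y _ _ ⟨V, hV, h⟩ ⟨W, hW, h'⟩
    refine ⟨V + W, add_nonneg hV hW, fun P => ?_⟩
    calc ∑ p : {p // p ∈ P.1}, ‖coord 𝕜 P p (x + y)‖
        ≤ ∑ p : {p // p ∈ P.1}, (‖coord 𝕜 P p x‖ + ‖coord 𝕜 P p y‖) := by
          apply Finset.sum_le_sum
          intro p _
          rw [map_add]; exact norm_add_le _ _
      _ ≤ V + W := by
          rw [Finset.sum_add_distrib]; exact add_le_add (h P) (h' P)
  · rintro a x _ ⟨V, hV, h⟩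
    refine ⟨‖a‖ * V, mul_nonneg (norm_nonneg _) hV, fun P => ?_⟩
    calc ∑ p : {p // p ∈ P.1}, ‖coord 𝕜 P p (a • x)‖
        = ‖a‖ * ∑ p : {p // p ∈ P.1}, ‖coord 𝕜 P p x‖ := by
          rw [Finset.mul_sum]
          apply Finset.sum_congr rfl
          intro p _
          rw [map_smul, smul_eq_mul, norm_mul]
      _ ≤ ‖a‖ * V := mul_le_mul_of_nonneg_left (h P) (norm_nonneg _)

/-- variation bound, in terms of evaluations -/
lemma bv_simpJ {x : JFK 𝕜} (hx : x ∈ simpJ 𝕜) :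
    ∃ V : ℝ, 0 ≤ V ∧ ∀ P : Part, ∑ p ∈ P.1, ‖ev 𝕜 p.2 x - ev 𝕜 p.1 x‖ ≤ V := by
  obtain ⟨V, hV, h⟩ := bv_simp 𝕜 (x := (x : Amb 𝕜)) hx
  refine ⟨V, hV, fun P => ?_⟩
  rw [← Finset.sum_coe_sort P.1 (fun p => ‖ev 𝕜 p.2 x - ev 𝕜 p.1 x‖)]
  refine le_trans (le_of_eq ?_) (h P)
  apply Finset.sum_congr rfl
  intro p _
  rw [coord_eq_of_mem 𝕜 x.2 P p]; rfl

/-- gliding hump estimate -/
lemma hump {x : JFK 𝕜} (hx : x ∈ simpJ 𝕜) :
    ∃ ε : ℝ, 0 < ε ∧ ∀ z : JFK 𝕜, (∀ t, ‖ev 𝕜 t z‖ ≤ ε) →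
      ‖x + z‖ ^ 2 ≤ ‖x‖ ^ 2 + ‖z‖ ^ 2 + 1 := by
  obtain ⟨V, hV, h⟩ := bv_simpJ 𝕜 hx
  refine ⟨1 / (4 * (V + 1)), by positivity, fun z hz => ?_⟩
  apply norm_sq_le_of
  intro P
  have key : ∀ p ∈ P.1, ‖ev 𝕜 p.2 (x + z) - ev 𝕜 p.1 (x + z)‖ ^ 2 ≤
      ‖ev 𝕜 p.2 x - ev 𝕜 p.1 x‖ ^ 2 + ‖ev 𝕜 p.2 z - ev 𝕜 p.1 z‖ ^ 2
        + ‖ev 𝕜 p.2 x - ev 𝕜 p.1 x‖ * (1 / (V + 1)) := by
    intro p _
    rw [map_add, map_add]
    have h1 : ‖ev 𝕜 p.2 z - ev 𝕜 p.1 z‖ ≤ 1 / (2 * (V + 1)) := by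
      calc ‖ev 𝕜 p.2 z - ev 𝕜 p.1 z‖ ≤ ‖ev 𝕜 p.2 z‖ + ‖ev 𝕜 p.1 z‖ := norm_sub_le _ _
        _ ≤ 1 / (4 * (V + 1)) + 1 / (4 * (V + 1)) := add_le_add (hz _) (hz _)
        _ = 1 / (2 * (V + 1)) := by field_simp; norm_num
    have h2 : 2 * (‖ev 𝕜 p.2 x - ev 𝕜 p.1 x‖ * ‖ev 𝕜 p.2 z - ev 𝕜 p.1 z‖) ≤
        ‖ev 𝕜 p.2 x - ev 𝕜 p.1 x‖ * (1 / (V + 1)) := by
      calc 2 * (‖ev 𝕜 p.2 x - ev 𝕜 p.1 x‖ * ‖ev 𝕜 p.2 z - ev 𝕜 p.1 z‖)
          ≤ 2 * (‖ev 𝕜 p.2 x - ev 𝕜 p.1 x‖ * (1 / (2 * (V + 1)))) := by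
            apply mul_le_mul_of_nonneg_left _ zero_le_two
            exact mul_le_mul_of_nonneg_left h1 (norm_nonneg _)
        _ = ‖ev 𝕜 p.2 x - ev 𝕜 p.1 x‖ * (1 / (V + 1)) := by field_simp
    have h3 : ‖ev 𝕜 p.2 x + ev 𝕜 p.2 z - (ev 𝕜 p.1 x + ev 𝕜 p.1 z)‖ ≤
        ‖ev 𝕜 p.2 x - ev 𝕜 p.1 x‖ + ‖ev 𝕜 p.2 z - ev 𝕜 p.1 z‖ := by
      rw [show ev 𝕜 p.2 x + ev 𝕜 p.2 z - (ev 𝕜 p.1 x + ev 𝕜 p.1 z) =
        (ev 𝕜 p.2 x - ev 𝕜 p.1 x) + (ev 𝕜 p.2 z - ev 𝕜 p.1 z) by ring]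
      exact norm_add_le _ _
    have h4 := pow_le_pow_left₀ (norm_nonneg _) h3 2
    nlinarith [h2, h4]
  calc ∑ p ∈ P.1, ‖ev 𝕜 p.2 (x + z) - ev 𝕜 p.1 (x + z)‖ ^ 2
      ≤ ∑ p ∈ P.1, (‖ev 𝕜 p.2 x - ev 𝕜 p.1 x‖ ^ 2 + ‖ev 𝕜 p.2 z - ev 𝕜 p.1 z‖ ^ 2
        + ‖ev 𝕜 p.2 x - ev 𝕜 p.1 x‖ * (1 / (V + 1))) := Finset.sum_le_sum key
    _ = ∑ p ∈ P.1, ‖ev 𝕜 p.2 x - ev 𝕜 p.1 x‖ ^ 2 + ∑ p ∈ P.1, ‖ev 𝕜 p.2 z - ev 𝕜 p.1 z‖ ^ 2
        + (∑ p ∈ P.1, ‖ev 𝕜 p.2 x - ev 𝕜 p.1 x‖) * (1 / (V + 1)) := by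
        rw [Finset.sum_add_distrib, Finset.sum_add_distrib, Finset.sum_mul]
    _ ≤ ‖x‖ ^ 2 + ‖z‖ ^ 2 + V * (1 / (V + 1)) := by
        apply add_le_add (add_le_add (sum_sq_le 𝕜 x P) (sum_sq_le 𝕜 z P))
        exact mul_le_mul_of_nonneg_right (h P) (by positivity)
    _ ≤ ‖x‖ ^ 2 + ‖z‖ ^ 2 + 1 := by
        have : V * (1 / (V + 1)) ≤ 1 := by
          rw [mul_one_div, div_le_one (by positivity)]; linarith
        linarith

/-- energy of a finite family of vectors on a finite family of intervals -/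
noncomputable def En (N : ℕ) (x : ℕ → JFK 𝕜) (P : Part) : ℝ :=
  ∑ k ∈ Finset.range N, ∑ p ∈ P.1, ‖ev 𝕜 p.2 (x k) - ev 𝕜 p.1 (x k)‖ ^ 2

lemma En_nonneg (N : ℕ) (x : ℕ → JFK 𝕜) (P : Part) : 0 ≤ En 𝕜 N x P :=
  Finset.sum_nonneg (fun _ _ => Finset.sum_nonneg (fun _ _ => sq_nonneg _))

lemma En_le (N : ℕ) (x : ℕ → JFK 𝕜) (C : ℝ) (hx : ∀ k, ‖x k‖ ≤ C) (P : Part) :
    En 𝕜 N x P ≤ N * C ^ 2 := by
  unfold En
  calc ∑ k ∈ Finset.range N, ∑ p ∈ P.1, ‖ev 𝕜 p.2 (x k) - ev 𝕜 p.1 (x k)‖ ^ 2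
      ≤ ∑ k ∈ Finset.range N, C ^ 2 := by
        apply Finset.sum_le_sum
        intro k _
        exact (sum_sq_le 𝕜 (x k) P).trans (pow_le_pow_left₀ (norm_nonneg _) (hx k) 2)
    _ = N * C ^ 2 := by simp

/-- cumulative energy up to time `t` -/
noncomputable def G (N : ℕ) (x : ℕ → JFK 𝕜) (t : ℝ≥0) : ℝ :=
  sSup {r : ℝ | ∃ P : Part, (∀ p ∈ P.1, p.2 ≤ t) ∧ r = En 𝕜 N x P}

lemma G_bdd (N : ℕ) (x : ℕ → JFK 𝕜) (C : ℝ) (hx : ∀ k, ‖x k‖ ≤ C) (t : ℝ≥0) :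
    BddAbove {r : ℝ | ∃ P : Part, (∀ p ∈ P.1, p.2 ≤ t) ∧ r = En 𝕜 N x P} := by
  refine ⟨N * C ^ 2, ?_⟩
  rintro _ ⟨P, _, rfl⟩
  exact En_le 𝕜 N x C hx P

lemma G_nonempty (N : ℕ) (x : ℕ → JFK 𝕜) (t : ℝ≥0) :
    {r : ℝ | ∃ P : Part, (∀ p ∈ P.1, p.2 ≤ t) ∧ r = En 𝕜 N x P}.Nonempty :=
  ⟨_, ⟨∅, by simp⟩, by simp, rfl⟩

lemma G_nonneg (N : ℕ) (x : ℕ → JFK 𝕜) (C : ℝ) (hx : ∀ k, ‖x k‖ ≤ C) (t : ℝ≥0) :
    0 ≤ G 𝕜 N x t :=
  (En_nonneg 𝕜 N x ⟨∅, by simp⟩).trans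
    (le_csSup (G_bdd 𝕜 N x C hx t) ⟨⟨∅, by simp⟩, by simp, rfl⟩)

lemma G_le (N : ℕ) (x : ℕ → JFK 𝕜) (C : ℝ) (hx : ∀ k, ‖x k‖ ≤ C) (t : ℝ≥0) :
    G 𝕜 N x t ≤ N * C ^ 2 := by
  apply csSup_le (G_nonempty 𝕜 N x t)
  rintro _ ⟨P, _, rfl⟩
  exact En_le 𝕜 N x C hx P

lemma G_step (N : ℕ) (x : ℕ → JFK 𝕜) (C : ℝ) (hx : ∀ k, ‖x k‖ ≤ C) {s t : ℝ≥0} (hst : s < t) :
    G 𝕜 N x s + ∑ k ∈ Finset.range N, ‖ev 𝕜 t (x k) - ev 𝕜 s (x k)‖ ^ 2 ≤ G 𝕜 N x t := by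
  rw [← le_sub_iff_add_le]
  apply csSup_le (G_nonempty 𝕜 N x s)
  rintro _ ⟨P, hP, rfl⟩
  rw [le_sub_iff_add_le]
  have hnot : (s, t) ∉ P.1 := fun h => absurd (hP _ h) (not_le.2 hst)
  let Q : Part := ⟨insert (s, t) P.1, by
    constructor
    · intro p hp
      rw [Finset.mem_insert] at hp
      rcases hp with rfl | hp
      · exact hst.le
      · exact P.2.1 p hp
    · rw [Finset.coe_insert]
      rw [Set.pairwiseDisjoint_insert]
      refine ⟨P.2.2, ?_⟩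
      intro p hp _
      change Disjoint (Set.Ico s t) (Set.Ico p.1 p.2)
      rw [Set.disjoint_left]
      intro q hq hq'
      exact absurd (hP p hp) (not_le.2 (lt_of_le_of_lt hq.1 hq'.2))⟩
  have hQ : En 𝕜 N x Q = En 𝕜 N x P
      + ∑ k ∈ Finset.range N, ‖ev 𝕜 t (x k) - ev 𝕜 s (x k)‖ ^ 2 := by
    unfold En
    rw [← Finset.sum_add_distrib]
    apply Finset.sum_congr rfl
    intro k _
    change ∑ p ∈ insert (s, t) P.1, _ = _
    rw [Finset.sum_insert hnot]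
    ring
  rw [← hQ]
  apply le_csSup (G_bdd 𝕜 N x C hx t)
  refine ⟨Q, ?_, rfl⟩
  intro p hp
  change p ∈ insert (s, t) P.1 at hp
  rw [Finset.mem_insert] at hp
  rcases hp with rfl | hp
  · exact le_rfl
  · exact (hP p hp).trans hst.le

lemma exists_net (N : ℕ) (x : ℕ → JFK 𝕜) (C : ℝ) (hx : ∀ k, ‖x k‖ ≤ C) (η : ℝ) (hη : 0 < η) :
    ∃ T : Finset ℝ≥0, (T.card : ℝ) ≤ N * C ^ 2 / η ^ 2 + 1 ∧
      ∀ t, ∃ s ∈ T, ∀ k ∈ Finset.range N, ‖ev 𝕜 t (x k) - ev 𝕜 s (x k)‖ ≤ η := by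
  classical
  set M : ℕ := ⌊(N * C ^ 2 / η ^ 2 : ℝ)⌋₊ with hM
  set idx : ℝ≥0 → ℕ := fun t => ⌊G 𝕜 N x t / η ^ 2⌋₊ with hidx
  have hη2 : 0 < η ^ 2 := by positivity
  have hle : ∀ t, idx t ≤ M := fun t =>
    Nat.floor_le_floor (div_le_div_of_nonneg_right (G_le 𝕜 N x C hx t) hη2.le)
  have hclose : ∀ s t, s < t → idx s = idx t → ∀ k ∈ Finset.range N,
      ‖ev 𝕜 t (x k) - ev 𝕜 s (x k)‖ ≤ η := by
    intro s t hst hi k hk
    have h1 := G_step 𝕜 N x C hx hst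
    have h2 : ‖ev 𝕜 t (x k) - ev 𝕜 s (x k)‖ ^ 2 ≤
        ∑ k ∈ Finset.range N, ‖ev 𝕜 t (x k) - ev 𝕜 s (x k)‖ ^ 2 :=
      Finset.single_le_sum (f := fun k => ‖ev 𝕜 t (x k) - ev 𝕜 s (x k)‖ ^ 2)
        (fun _ _ => sq_nonneg _) hk
    have h3 : G 𝕜 N x t / η ^ 2 < idx t + 1 := Nat.lt_floor_add_one _
    have h4 : (idx s : ℝ) ≤ G 𝕜 N x s / η ^ 2 :=
      Nat.floor_le (div_nonneg (G_nonneg 𝕜 N x C hx s) hη2.le)
    rw [hi] at h4
    rw [div_lt_iff₀ hη2] at h3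
    rw [le_div_iff₀ hη2] at h4
    have h5 : ‖ev 𝕜 t (x k) - ev 𝕜 s (x k)‖ ^ 2 ≤ η ^ 2 := by nlinarith
    exact le_of_sq_le_sq h5 hη.le
  let R : Finset ℕ := (Finset.range (M + 1)).filter (fun j => ∃ t, idx t = j)
  have hR : ∀ j : {j // j ∈ R}, ∃ t, idx t = j.1 := fun j => (Finset.mem_filter.1 j.2).2
  choose rep hrep using hR
  refine ⟨Finset.univ.image rep, ?_, ?_⟩
  · have h1 : (Finset.univ.image rep).card ≤ M + 1 := by
      calc (Finset.univ.image rep).card ≤ (Finset.univ : Finset {j // j ∈ R}).card :=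
            Finset.card_image_le
        _ = R.card := by simp
        _ ≤ (Finset.range (M + 1)).card := Finset.card_filter_le _ _
        _ = M + 1 := Finset.card_range _
    have h2 : (M : ℝ) ≤ N * C ^ 2 / η ^ 2 := Nat.floor_le (by positivity)
    have h3 : ((Finset.univ.image rep).card : ℝ) ≤ (M : ℝ) + 1 := by exact_mod_cast h1
    linarith
  · intro t
    have hmem : idx t ∈ R :=
      Finset.mem_filter.2 ⟨Finset.mem_range.2 (Nat.lt_succ_of_le (hle t)), t, rfl⟩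
    refine ⟨rep ⟨idx t, hmem⟩, Finset.mem_image_of_mem _ (Finset.mem_univ _), ?_⟩
    have hs := hrep ⟨idx t, hmem⟩
    simp only at hs
    intro k hk
    rcases lt_trichotomy (rep ⟨idx t, hmem⟩) t with h | h | h
    · exact hclose _ _ h hs k hk
    · rw [h]; simp [hη.le]
    · rw [norm_sub_rev]
      exact hclose _ _ h hs.symm k hk

lemma exists_signs (C ε : ℝ) (hε : 0 < ε) :
    ∃ N : ℕ, 0 < N ∧ ∀ x : ℕ → JFK 𝕜, (∀ k, ‖x k‖ ≤ C) →
      ∃ θ : ℕ → ℝ, (∀ k, |θ k| = 1) ∧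
        ∀ t, ‖ev 𝕜 t (∑ k ∈ Finset.range N, ((θ k : ℝ) : 𝕜) • x k)‖ ≤ ε * N := by
  obtain ⟨N, hN⟩ := exists_nat_gt (6 * (4 * C ^ 2 / ε ^ 2 + 1) * C ^ 4 / (ε / 4) ^ 4)
  have hN0 : (0 : ℝ) < N := lt_of_le_of_lt (by positivity) hN
  have hN0' : 0 < N := by exact_mod_cast hN0
  have hN1 : (1 : ℝ) ≤ N := by exact_mod_cast hN0'
  refine ⟨N, hN0', fun x hx => ?_⟩
  obtain ⟨T, hT, hnet⟩ := exists_net 𝕜 N x C hx (ε / 2) (by positivity)
  let v : ℕ → ℝ≥0 × Bool → ℝ := fun k s =>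
    if s.2 then RCLike.re (ev 𝕜 s.1 (x k)) else RCLike.im (ev 𝕜 s.1 (x k))
  have hv : ∀ k s, |v k s| ≤ C := by
    intro k s
    have h0 : ‖ev 𝕜 s.1 (x k)‖ ≤ C := (norm_ev_le 𝕜 s.1 (x k)).trans (hx k)
    simp only [v]
    split_ifs
    · exact (RCLike.abs_re_le_norm _).trans h0
    · exact (RCLike.abs_im_le_norm _).trans h0
  obtain ⟨θ, hθ, hs⟩ := signs (T ×ˢ (Finset.univ : Finset Bool)) C v hv N (fun _ => 0)
  refine ⟨θ, hθ, ?_⟩
  have hcard : ((T ×ˢ (Finset.univ : Finset Bool)).card : ℝ) = 2 * T.card := by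
    rw [Finset.card_product]
    simp [mul_comm]
  have hsum : ∑ s ∈ T ×ˢ (Finset.univ : Finset Bool),
      (∑ k ∈ Finset.range N, θ k * v k s) ^ 4 ≤ (ε / 4 * N) ^ 4 := by
    calc ∑ s ∈ T ×ˢ (Finset.univ : Finset Bool), (∑ k ∈ Finset.range N, θ k * v k s) ^ 4
        = ∑ s ∈ T ×ˢ (Finset.univ : Finset Bool),
          (0 + ∑ k ∈ Finset.range N, θ k * v k s) ^ 4 := by simp
      _ ≤ ∑ s ∈ T ×ˢ (Finset.univ : Finset Bool),
          ((0:ℝ) ^ 4 + 6 * N * C ^ 2 * (0:ℝ) ^ 2 + 3 * N ^ 2 * C ^ 4) := hs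
      _ = (2 * T.card) * (3 * N ^ 2 * C ^ 4) := by
          rw [Finset.sum_const, nsmul_eq_mul, hcard]; ring
      _ ≤ (2 * (N * C ^ 2 / (ε / 2) ^ 2 + 1)) * (3 * N ^ 2 * C ^ 4) :=
          mul_le_mul_of_nonneg_right (mul_le_mul_of_nonneg_left hT zero_le_two) (by positivity)
      _ ≤ (2 * (N * (4 * C ^ 2 / ε ^ 2 + 1))) * (3 * N ^ 2 * C ^ 4) := by
          apply mul_le_mul_of_nonneg_right _ (by positivity)
          have : N * C ^ 2 / (ε / 2) ^ 2 = N * (4 * C ^ 2 / ε ^ 2) := by field_simp; norm_num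
          rw [this, mul_add]
          linarith
      _ = (6 * (4 * C ^ 2 / ε ^ 2 + 1) * C ^ 4) * N ^ 3 := by ring
      _ ≤ ((ε / 4) ^ 4 * N) * N ^ 3 := by
          apply mul_le_mul_of_nonneg_right _ (by positivity)
          rw [div_lt_iff₀ (by positivity)] at hN
          nlinarith
      _ = (ε / 4 * N) ^ 4 := by ring
  have hT' : ∀ s ∈ T ×ˢ (Finset.univ : Finset Bool),
      |∑ k ∈ Finset.range N, θ k * v k s| ≤ ε / 4 * N := by
    intro s hs'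
    have h1 : (∑ k ∈ Finset.range N, θ k * v k s) ^ 4 ≤ (ε / 4 * N) ^ 4 :=
      (Finset.single_le_sum (f := fun s => (∑ k ∈ Finset.range N, θ k * v k s) ^ 4)
        (fun _ _ => by positivity) hs').trans hsum
    have h2 : |∑ k ∈ Finset.range N, θ k * v k s| ^ 4 ≤ (ε / 4 * N) ^ 4 := by
      rw [Even.pow_abs (by decide)]; exact h1
    exact le_of_pow_le_pow_left₀ (by norm_num) (by positivity) h2
  have hT'' : ∀ s ∈ T, ‖∑ k ∈ Finset.range N, ((θ k : ℝ) : 𝕜) * ev 𝕜 s (x k)‖ ≤ ε / 2 * N := by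
    intro s hs'
    have h1 := hT' (s, true) (Finset.mem_product.2 ⟨hs', Finset.mem_univ _⟩)
    have h2 := hT' (s, false) (Finset.mem_product.2 ⟨hs', Finset.mem_univ _⟩)
    simp only [v, if_true, if_false, Bool.false_eq_true] at h1 h2
    have h3 : RCLike.re (∑ k ∈ Finset.range N, ((θ k : ℝ) : 𝕜) * ev 𝕜 s (x k))
        = ∑ k ∈ Finset.range N, θ k * RCLike.re (ev 𝕜 s (x k)) := by
      rw [map_sum]
      exact Finset.sum_congr rfl (fun k _ => RCLike.re_ofReal_mul _ _)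
    have h4 : RCLike.im (∑ k ∈ Finset.range N, ((θ k : ℝ) : 𝕜) * ev 𝕜 s (x k))
        = ∑ k ∈ Finset.range N, θ k * RCLike.im (ev 𝕜 s (x k)) := by
      rw [map_sum]
      exact Finset.sum_congr rfl (fun k _ => RCLike.im_ofReal_mul _ _)
    rw [← h3] at h1
    rw [← h4] at h2
    have h5 : ∀ w : 𝕜, ‖w‖ ≤ |RCLike.re w| + |RCLike.im w| := by
      intro w
      have h6 := RCLike.norm_sq_eq_def (z := w)
      have h7 : ‖w‖ ^ 2 ≤ (|RCLike.re w| + |RCLike.im w|) ^ 2 := by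
        rw [h6]
        nlinarith [sq_abs (RCLike.re w), sq_abs (RCLike.im w), abs_nonneg (RCLike.re w),
          abs_nonneg (RCLike.im w), mul_nonneg (abs_nonneg (RCLike.re w)) (abs_nonneg (RCLike.im w))]
      exact le_of_sq_le_sq h7 (by positivity)
    have h6 := h5 (∑ k ∈ Finset.range N, ((θ k : ℝ) : 𝕜) * ev 𝕜 s (x k))
    linarith
  intro t
  obtain ⟨s, hsT, hst⟩ := hnet t
  have h1 : ev 𝕜 t (∑ k ∈ Finset.range N, ((θ k : ℝ) : 𝕜) • x k) =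
      ∑ k ∈ Finset.range N, ((θ k : ℝ) : 𝕜) * ev 𝕜 s (x k)
      + ∑ k ∈ Finset.range N, ((θ k : ℝ) : 𝕜) * (ev 𝕜 t (x k) - ev 𝕜 s (x k)) := by
    rw [map_sum, ← Finset.sum_add_distrib]
    apply Finset.sum_congr rfl
    intro k _
    rw [map_smul, smul_eq_mul]; ring
  have h2 : ‖∑ k ∈ Finset.range N, ((θ k : ℝ) : 𝕜) * (ev 𝕜 t (x k) - ev 𝕜 s (x k))‖
      ≤ N * (ε / 2) := by
    calc ‖∑ k ∈ Finset.range N, ((θ k : ℝ) : 𝕜) * (ev 𝕜 t (x k) - ev 𝕜 s (x k))‖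
        ≤ ∑ k ∈ Finset.range N, ‖((θ k : ℝ) : 𝕜) * (ev 𝕜 t (x k) - ev 𝕜 s (x k))‖ :=
          norm_sum_le _ _
      _ ≤ ∑ k ∈ Finset.range N, ε / 2 := by
          apply Finset.sum_le_sum
          intro k hk
          rw [norm_mul, RCLike.norm_ofReal, hθ, one_mul]
          exact hst k hk
      _ = N * (ε / 2) := by simp
  rw [h1]
  calc _ ≤ ‖∑ k ∈ Finset.range N, ((θ k : ℝ) : 𝕜) * ev 𝕜 s (x k)‖
      + ‖∑ k ∈ Finset.range N, ((θ k : ℝ) : 𝕜) * (ev 𝕜 t (x k) - ev 𝕜 s (x k))‖ :=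
        norm_add_le _ _
    _ ≤ ε / 2 * N + N * (ε / 2) := add_le_add (hT'' s hsT) h2
    _ = ε * N := by ring

/-- from a bounded sequence of simple vectors, long combinations with `ℓ₂` upper estimates -/
lemma exists_comb (C : ℝ) (x : ℕ → JFK 𝕜) (hx : ∀ k, ‖x k‖ ≤ C)
    (hs : ∀ k, x k ∈ simpJ 𝕜) (M : ℕ) :
    ∃ (K : ℕ) (a : ℕ → ℝ), (∑ k ∈ Finset.range K, |a k|) = M ∧
      ‖∑ k ∈ Finset.range K, ((a k : ℝ) : 𝕜) • x k‖ ^ 2 ≤ M * (C ^ 2 + 1) := by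
  induction M with
  | zero => exact ⟨0, fun _ => 0, by simp, by simp⟩
  | succ M ih =>
    obtain ⟨K, a, ha, hn⟩ := ih
    have hmem : (∑ k ∈ Finset.range K, ((a k : ℝ) : 𝕜) • x k) ∈ simpJ 𝕜 :=
      Submodule.sum_mem _ (fun k _ => Submodule.smul_mem _ _ (hs k))
    obtain ⟨ε, hε, hh⟩ := hump 𝕜 hmem
    obtain ⟨N, hN, hsg⟩ := exists_signs 𝕜 C ε hε
    obtain ⟨θ, hθ, hev⟩ := hsg (fun k => x (K + k)) (fun k => hx _)
    have hNr : (0:ℝ) < N := by exact_mod_cast hN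
    set z : JFK 𝕜 := ((1 / (N:ℝ) : ℝ) : 𝕜) • ∑ k ∈ Finset.range N, ((θ k : ℝ) : 𝕜) • x (K + k)
      with hz
    have hnn : ‖((1 / (N:ℝ) : ℝ) : 𝕜)‖ = 1 / N := by
      rw [RCLike.norm_ofReal, abs_of_pos (by positivity : (0:ℝ) < 1 / N)]
    have hz1 : ∀ t, ‖ev 𝕜 t z‖ ≤ ε := by
      intro t
      rw [hz, map_smul, smul_eq_mul, norm_mul, hnn]
      calc 1 / (N:ℝ) * ‖ev 𝕜 t (∑ k ∈ Finset.range N, ((θ k : ℝ) : 𝕜) • x (K + k))‖
          ≤ 1 / (N:ℝ) * (ε * N) := mul_le_mul_of_nonneg_left (hev t) (by positivity)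
        _ = ε := by field_simp
    have hz2 : ‖z‖ ≤ C := by
      rw [hz, norm_smul, hnn]
      calc 1 / (N:ℝ) * ‖∑ k ∈ Finset.range N, ((θ k : ℝ) : 𝕜) • x (K + k)‖
          ≤ 1 / (N:ℝ) * ∑ k ∈ Finset.range N, ‖((θ k : ℝ) : 𝕜) • x (K + k)‖ :=
            mul_le_mul_of_nonneg_left (norm_sum_le _ _) (by positivity)
        _ ≤ 1 / (N:ℝ) * ∑ k ∈ Finset.range N, C := by
            apply mul_le_mul_of_nonneg_left _ (by positivity)
            apply Finset.sum_le_sum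
            intro k _
            rw [norm_smul, RCLike.norm_ofReal, hθ, one_mul]
            exact hx _
        _ = C := by simp; field_simp
    refine ⟨K + N, fun k => if k < K then a k else 1 / (N:ℝ) * θ (k - K), ?_, ?_⟩
    · rw [Finset.sum_range_add]
      have e1 : ∑ k ∈ Finset.range K, |if k < K then a k else 1 / (N:ℝ) * θ (k - K)|
          = M := by
        rw [← ha]
        apply Finset.sum_congr rfl
        intro k hk
        rw [if_pos (Finset.mem_range.1 hk)]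
      have e2 : ∑ k ∈ Finset.range N, |if K + k < K then a (K + k)
          else 1 / (N:ℝ) * θ (K + k - K)| = 1 := by
        calc ∑ k ∈ Finset.range N, |if K + k < K then a (K + k)
            else 1 / (N:ℝ) * θ (K + k - K)| = ∑ k ∈ Finset.range N, 1 / (N:ℝ) := by
              apply Finset.sum_congr rfl
              intro k _
              rw [if_neg (by omega), Nat.add_sub_cancel_left, abs_mul, hθ, mul_one,
                abs_of_pos (by positivity : (0:ℝ) < 1 / N)]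
          _ = 1 := by simp; field_simp
      rw [e1, e2]; push_cast; ring
    · have e1 : ∑ k ∈ Finset.range (K + N),
            (((if k < K then a k else 1 / (N:ℝ) * θ (k - K) : ℝ)) : 𝕜) • x k
          = ∑ k ∈ Finset.range K, ((a k : ℝ) : 𝕜) • x k + z := by
        rw [Finset.sum_range_add, hz, Finset.smul_sum]
        congr 1
        · apply Finset.sum_congr rfl
          intro k hk
          rw [if_pos (Finset.mem_range.1 hk)]
        · apply Finset.sum_congr rfl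
          intro k _
          rw [if_neg (by omega), Nat.add_sub_cancel_left, smul_smul, ← RCLike.ofReal_mul]
      rw [e1]
      calc ‖∑ k ∈ Finset.range K, ((a k : ℝ) : 𝕜) • x k + z‖ ^ 2
          ≤ ‖∑ k ∈ Finset.range K, ((a k : ℝ) : 𝕜) • x k‖ ^ 2 + ‖z‖ ^ 2 + 1 := hh z hz1
        _ ≤ M * (C ^ 2 + 1) + C ^ 2 + 1 := by
            have := pow_le_pow_left₀ (norm_nonneg _) hz2 2
            linarith
        _ = ((M + 1 : ℕ) : ℝ) * (C ^ 2 + 1) := by push_cast; ring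

/-- `JFK 𝕜` contains no isomorphic copy of `ℓ₁`. -/
theorem no_l1 : ¬ ∃ (T : lp (fun _ : ℕ => 𝕜) (1 : ENNReal) →L[𝕜] JFK 𝕜) (c : ℝ),
    0 < c ∧ ∀ y, c * ‖y‖ ≤ ‖T y‖ := by
  rintro ⟨T, c, hc, hT⟩
  let u : ℕ → lp (fun _ : ℕ => 𝕜) (1 : ENNReal) := fun n => lp.single 1 n (1:𝕜)
  have hu : ∀ n, ‖u n‖ = 1 := by
    intro n
    simp only [u]
    rw [lp.norm_single (by norm_num)]
    simp
  have hcomb : ∀ (K : ℕ) (a : ℕ → ℝ), ‖∑ k ∈ Finset.range K, ((a k : ℝ) : 𝕜) • u k‖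
      = ∑ k ∈ Finset.range K, |a k| := by
    intro K a
    have h1 : ∑ k ∈ Finset.range K, ((a k : ℝ) : 𝕜) • u k
        = ∑ k ∈ Finset.range K, lp.single 1 k ((a k : ℝ) : 𝕜) := by
      apply Finset.sum_congr rfl
      intro k _
      simp only [u]
      rw [← lp.single_smul]; simp
    rw [h1]
    have h2 := lp.norm_sum_single (E := fun _ : ℕ => 𝕜) (p := 1) (by norm_num)
      (fun k => ((a k : ℝ) : 𝕜)) (Finset.range K)
    simpa using h2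
  choose x hx1 hx2 using fun n => exists_simp_near 𝕜 (T (u n)) (c / 2) (by positivity)
  have hbd : ∀ k, ‖x k‖ ≤ ‖T‖ + c / 2 := by
    intro k
    have h1 : ‖T (u k)‖ ≤ ‖T‖ := by
      have := T.le_opNorm (u k)
      rwa [hu, mul_one] at this
    have h2 := norm_sub_norm_le (x k) (T (u k))
    rw [norm_sub_rev] at h2
    have h3 := hx2 k
    linarith
  have hlow : ∀ (K : ℕ) (a : ℕ → ℝ), c / 2 * ∑ k ∈ Finset.range K, |a k|
      ≤ ‖∑ k ∈ Finset.range K, ((a k : ℝ) : 𝕜) • x k‖ := by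
    intro K a
    have h1 : c * ∑ k ∈ Finset.range K, |a k|
        ≤ ‖∑ k ∈ Finset.range K, ((a k : ℝ) : 𝕜) • T (u k)‖ := by
      rw [← hcomb]
      have := hT (∑ k ∈ Finset.range K, ((a k : ℝ) : 𝕜) • u k)
      rwa [map_sum, Finset.sum_congr rfl
        (fun k _ => T.map_smul ((a k : ℝ) : 𝕜) (u k))] at this
    have h2 : ‖∑ k ∈ Finset.range K, ((a k : ℝ) : 𝕜) • T (u k)
          - ∑ k ∈ Finset.range K, ((a k : ℝ) : 𝕜) • x k‖
        ≤ c / 2 * ∑ k ∈ Finset.range K, |a k| := by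
      rw [← Finset.sum_sub_distrib, Finset.mul_sum]
      apply (norm_sum_le _ _).trans
      apply Finset.sum_le_sum
      intro k _
      rw [← smul_sub, norm_smul, RCLike.norm_ofReal, mul_comm]
      exact mul_le_mul_of_nonneg_right (hx2 k).le (abs_nonneg _)
    have h3 := norm_sub_norm_le (∑ k ∈ Finset.range K, ((a k : ℝ) : 𝕜) • T (u k))
      (∑ k ∈ Finset.range K, ((a k : ℝ) : 𝕜) • x k)
    nlinarith
  set C := ‖T‖ + c / 2 with hCdef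
  have hC : 0 ≤ C := by positivity
  obtain ⟨M, hM⟩ := exists_nat_gt ((C ^ 2 + 1) / (c / 2) ^ 2)
  obtain ⟨K, a, ha, hn⟩ := exists_comb 𝕜 C x hbd hx1 M
  have h1 := hlow K a
  rw [ha] at h1
  have hMpos : (0:ℝ) < M := lt_of_le_of_lt (by positivity) hM
  have h2 : (c / 2 * M) ^ 2 ≤ M * (C ^ 2 + 1) :=
    (pow_le_pow_left₀ (by positivity) h1 2).trans hn
  rw [div_lt_iff₀ (by positivity)] at hM
  nlinarith

/-- the convex set of vectors whose evaluation jumps from `0` to `1` inside `(a, b)` -/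
def D (a b : ℝ≥0) : Set (JFK 𝕜) :=
  {x | (∀ s ≤ a, ev 𝕜 s x = 0) ∧ (∀ s, b ≤ s → ev 𝕜 s x = 1)}

lemma D_mono {a b a' b' : ℝ≥0} (h1 : a' ≤ a) (h2 : b ≤ b') : D 𝕜 a b ⊆ D 𝕜 a' b' :=
  fun _ hx => ⟨fun s hs => hx.1 s (hs.trans h1), fun s hs => hx.2 s (h2.trans hs)⟩

lemma D_convex (a b : ℝ≥0) : Convex ℝ (D 𝕜 a b) := by
  intro x hx y hy r s _ _ hrs
  have hev : ∀ t, ev 𝕜 t (r • x + s • y) = r • ev 𝕜 t x + s • ev 𝕜 t y := by
    intro t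
    rw [map_add, RCLike.real_smul_eq_coe_smul (K := 𝕜) r x,
      RCLike.real_smul_eq_coe_smul (K := 𝕜) s y, map_smul, map_smul,
      RCLike.real_smul_eq_coe_smul (K := 𝕜) r, RCLike.real_smul_eq_coe_smul (K := 𝕜) s]
  constructor
  · intro t ht
    rw [hev, hx.1 t ht, hy.1 t ht]; simp
  · intro t ht
    rw [hev, hx.2 t ht, hy.2 t ht, ← add_smul, hrs, one_smul]

lemma exists_e_mem_D {a b : ℝ≥0} (h : a < b) : ∃ n, e 𝕜 n ∈ D 𝕜 a b := by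
  have hd : Dense (Set.range (TopologicalSpace.denseSeq ℝ≥0)) :=
    TopologicalSpace.denseRange_denseSeq ℝ≥0
  obtain ⟨q, hq, hab⟩ := hd.exists_between h
  obtain ⟨n, hn⟩ := hq
  refine ⟨n, ?_, ?_⟩
  · intro s hs
    rw [ev_e, if_neg]
    rw [not_lt]
    exact hs.trans (by unfold pos; rw [hn]; exact hab.1.le)
  · intro s hs
    rw [ev_e, if_pos]
    exact lt_of_lt_of_le (by unfold pos; rw [hn]; exact hab.2) hs

/-- For every equivalent norm `p` on `JFK 𝕜` there is a sequence of `p`-unit vectors such that all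
convex combinations of its tails have `p`-norm close to `1`, and along which one continuous linear
functional takes the value `0` at even places and values `≥ δ` at odd places. -/
theorem bad_seq (p : Seminorm 𝕜 (JFK 𝕜)) (a b : ℝ) (ha : 0 < a)
    (hab : ∀ x : JFK 𝕜, a * ‖x‖ ≤ p x ∧ p x ≤ b * ‖x‖) :
    ∃ w : ℕ → JFK 𝕜, (∀ n, p (w n) = 1) ∧
      (∀ ε : ℝ, 0 < ε → ∃ N : ℕ, ∀ y ∈ convexHull ℝ (w '' Set.Ici N), 1 - ε ≤ p y) ∧
      ∃ (f : JFK 𝕜 →L[𝕜] 𝕜) (δ : ℝ), 0 < δ ∧ (∀ n, f (w (2 * n)) = 0) ∧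
        ∀ n, δ ≤ ‖f (w (2 * n + 1))‖ := by
  have hb : 0 < b := by
    have h1 := hab (e 𝕜 0)
    have h2 : 0 < ‖e 𝕜 0‖ := by
      rw [norm_pos_iff]
      intro h
      have h3 := ev_e 𝕜 (pos 0 + 1) 0
      rw [h, map_zero, if_pos (lt_add_one _)] at h3
      exact zero_ne_one h3
    nlinarith
  -- the asymptotic cost of a jump at `t`
  let S : ℝ≥0 → Set ℝ := fun t => {r | ∃ α β, α < t ∧ t < β ∧ ∀ x ∈ D 𝕜 α β, r ≤ p x}
  let m : ℝ≥0 → ℝ := fun t => sSup (S t)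
  have hDa : ∀ α β, ∀ x ∈ D 𝕜 α β, a ≤ p x := by
    intro α β x hx
    have h1 := norm_ev_le 𝕜 β x
    rw [hx.2 β le_rfl, norm_one] at h1
    calc a = a * 1 := (mul_one a).symm
      _ ≤ a * ‖x‖ := mul_le_mul_of_nonneg_left h1 ha.le
      _ ≤ p x := (hab x).1
  have hSb : ∀ t, BddAbove (S t) := by
    intro t
    refine ⟨b, ?_⟩
    rintro r ⟨α, β, h1, h2, h3⟩
    obtain ⟨n, hn⟩ := exists_e_mem_D 𝕜 (h1.trans h2)
    calc r ≤ p (e 𝕜 n) := h3 _ hn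
      _ ≤ b * ‖e 𝕜 n‖ := (hab _).2
      _ ≤ b * 1 := mul_le_mul_of_nonneg_left (norm_e_le 𝕜 n) hb.le
      _ = b := mul_one b
  have hSa : ∀ t, 0 < t → a ∈ S t := fun t ht => ⟨0, t + 1, ht, lt_add_one t, hDa _ _⟩
  have hma : ∀ t, 0 < t → a ≤ m t := fun t ht => le_csSup (hSb t) (hSa t ht)
  have hlo : ∀ t, 0 < t → ∀ r, r < m t → ∃ α β, α < t ∧ t < β ∧ ∀ x ∈ D 𝕜 α β, r ≤ p x := by
    intro t ht r hr
    obtain ⟨r', ⟨α, β, h1, h2, h3⟩, hrr⟩ := exists_lt_of_lt_csSup ⟨a, hSa t ht⟩ hr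
    exact ⟨α, β, h1, h2, fun x hx => hrr.le.trans (h3 x hx)⟩
  have hhi : ∀ t r α β, m t < r → α < t → t < β → ∃ x ∈ D 𝕜 α β, p x < r := by
    intro t r α β hr h1 h2
    by_contra hcon
    push Not at hcon
    have : r ≤ m t := le_csSup (hSb t) ⟨α, β, h1, h2, hcon⟩
    linarith
  -- a good point
  obtain ⟨t, ht0, htR, htL⟩ : ∃ t : ℝ≥0, 0 < t ∧
      t ∉ {t : ℝ≥0 | ∃ b, t < b ∧ ∃ ε > 0, ∀ u, t < u → u < b → m t + ε ≤ m u} ∧
      t ∉ {t : ℝ≥0 | ∃ a, a < t ∧ ∃ ε > 0, ∀ u, a < u → u < t → m t + ε ≤ m u} := by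
    by_contra hcon
    push Not at hcon
    apply not_countable_Ioi
    apply ((countable_bad_right m).union (countable_bad_left m)).mono
    intro t ht
    by_cases h : t ∈ {t : ℝ≥0 | ∃ b, t < b ∧ ∃ ε > 0, ∀ u, t < u → u < b → m t + ε ≤ m u}
    · exact Or.inl h
    · exact Or.inr (hcon t ht h)
  have hR : ∀ α β ε, α < t → t < β → 0 < ε → ∃ x ∈ D 𝕜 α β, p x < m t + ε ∧ ev 𝕜 t x = 0 := by
    intro α β ε h1 h2 hε
    simp only [Set.mem_ofPred_eq, not_exists, not_and, not_forall, not_le] at htR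
    obtain ⟨u, hu1, hu2, hu3⟩ := htR β h2 ε hε
    obtain ⟨x, hx, hpx⟩ := hhi u (m t + ε) t β hu3 hu1 hu2
    exact ⟨x, D_mono 𝕜 h1.le le_rfl hx, hpx, hx.1 t le_rfl⟩
  have hL : ∀ α β ε, α < t → t < β → 0 < ε → ∃ x ∈ D 𝕜 α β, p x < m t + ε ∧ ev 𝕜 t x = 1 := by
    intro α β ε h1 h2 hε
    simp only [Set.mem_ofPred_eq, not_exists, not_and, not_forall, not_le] at htL
    obtain ⟨u, hu1, hu2, hu3⟩ := htL α h1 ε hε
    obtain ⟨x, hx, hpx⟩ := hhi u (m t + ε) α t hu3 hu1 hu2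
    exact ⟨x, D_mono 𝕜 le_rfl h2.le hx, hpx, hx.2 t le_rfl⟩
  -- sequences approaching `t`
  have hmt : 0 < m t := lt_of_lt_of_le ha (hma t ht0)
  obtain ⟨A, hAmono, hAlt, hAlim⟩ := exists_seq_strictMono_tendsto' ht0
  obtain ⟨B, hBanti, hBgt, hBlim⟩ := exists_seq_strictAnti_tendsto' (lt_add_one t)
  have hex : ∀ n : ℕ, ∃ x ∈ D 𝕜 (A n) (B n), p x < m t + 1 / ((n:ℝ) + 1) ∧
      ev 𝕜 t x = if Even n then 0 else 1 := by
    intro n
    by_cases hn : Even n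
    · simp only [hn, if_true]
      exact hR _ _ _ (hAlt n).2 (hBgt n).1 (by positivity)
    · simp only [hn, if_false]
      exact hL _ _ _ (hAlt n).2 (hBgt n).1 (by positivity)
  choose x hxD hxp hxe using hex
  have hpos : ∀ n, 0 < p (x n) := fun n => lt_of_lt_of_le ha (hDa _ _ _ (hxD n))
  -- real homogeneity of `p`
  have hpr : ∀ (r : ℝ) (y : JFK 𝕜), 0 ≤ r → p (r • y) = r * p y := by
    intro r y hr
    rw [RCLike.real_smul_eq_coe_smul (K := 𝕜), map_smul_eq_mul, RCLike.norm_ofReal,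
      abs_of_nonneg hr]
  -- lower bounds on the tail hulls of `x`
  have hhull : ∀ r, r < m t → ∃ n₀, ∀ y ∈ convexHull ℝ (x '' Set.Ici n₀), r ≤ p y := by
    intro r hr
    obtain ⟨α, β, h1, h2, h3⟩ := hlo t ht0 r hr
    have e1 : ∀ᶠ n in atTop, α < A n := hAlim.eventually (lt_mem_nhds h1)
    have e2 : ∀ᶠ n in atTop, B n < β := hBlim.eventually (gt_mem_nhds h2)
    obtain ⟨n₀, hn₀⟩ := eventually_atTop.1 (e1.and e2)
    refine ⟨n₀, fun y hy => h3 y ?_⟩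
    refine convexHull_min ?_ (D_convex 𝕜 α β) hy
    rintro _ ⟨i, hi, rfl⟩
    exact D_mono 𝕜 (hn₀ i hi).1.le (hn₀ i hi).2.le (hxD i)
  have hlim : Tendsto (fun n => p (x n)) atTop (𝓝 (m t)) := by
    rw [tendsto_order]
    constructor
    · intro r hr
      obtain ⟨r', hr1, hr2⟩ := exists_between hr
      obtain ⟨n₀, h⟩ := hhull r' hr2
      filter_upwards [eventually_ge_atTop n₀] with n hn
      exact lt_of_lt_of_le hr1 (h _ (subset_convexHull ℝ _ ⟨n, hn, rfl⟩))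
    · intro r hr
      have h1 : Tendsto (fun n : ℕ => m t + 1 / ((n:ℝ) + 1)) atTop (𝓝 (m t + 0)) :=
        tendsto_const_nhds.add tendsto_one_div_add_atTop_nhds_zero_nat
      rw [add_zero] at h1
      filter_upwards [h1.eventually (gt_mem_nhds hr)] with n hn
      exact (hxp n).trans hn
  have hub : ∀ n, p (x n) ≤ m t + 1 := by
    intro n
    have h1 := hxp n
    have h2 : 1 / ((n:ℝ) + 1) ≤ 1 := by
      rw [div_le_one (by positivity)]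
      have : (0:ℝ) ≤ n := Nat.cast_nonneg n
      linarith
    linarith
  -- normalised sequence
  let w : ℕ → JFK 𝕜 := fun n => (p (x n))⁻¹ • x n
  have hw1 : ∀ n, p (w n) = 1 := by
    intro n
    simp only [w]
    rw [hpr _ _ (inv_nonneg.2 (hpos n).le)]
    exact inv_mul_cancel₀ (hpos n).ne'
  refine ⟨w, hw1, ?_, ev 𝕜 t, (m t + 1)⁻¹, by positivity, ?_, ?_⟩
  · -- a convex combination of the `w i` is a multiple `≥ 1 / (m + small)` of one of the `x i`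
    intro ε hε
    -- work with `M > m t` and `r < m t` with `r / M ≥ 1 - ε`
    obtain ⟨δ, hδ0, hδ1, hδ2⟩ : ∃ δ : ℝ, 0 < δ ∧ δ < m t ∧
        (1 - ε) * (m t + δ) ≤ m t - δ := by
      refine ⟨min (m t / 2) (m t * ε / 2), by positivity, ?_, ?_⟩
      · exact lt_of_le_of_lt (min_le_left _ _) (by linarith)
      · have h1 := min_le_left (m t / 2) (m t * ε / 2)
        have h2 := min_le_right (m t / 2) (m t * ε / 2)
        have h3 : 0 < min (m t / 2) (m t * ε / 2) := by positivity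
        nlinarith
    obtain ⟨n₁, hn₁⟩ := hhull (m t - δ) (by linarith)
    obtain ⟨n₂, hn₂⟩ := eventually_atTop.1 (hlim.eventually (gt_mem_nhds
      (show m t < m t + δ by linarith)))
    refine ⟨max n₁ n₂, ?_⟩
    -- the set of vectors `s • z`, `z` in the hull, `s ≥ 1 / (m + δ)`, is convex
    have hconv : Convex ℝ {y : JFK 𝕜 | ∃ (s : ℝ) (z : JFK 𝕜), (m t + δ)⁻¹ ≤ s ∧
        z ∈ convexHull ℝ (x '' Set.Ici n₁) ∧ y = s • z} := by
      rintro _ ⟨s, z, hs, hz, rfl⟩ _ ⟨s', z', hs', hz', rfl⟩ c d hc hd hcd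
      have hM : 0 < (m t + δ)⁻¹ := by positivity
      have hs0 : 0 < s := lt_of_lt_of_le hM hs
      have hs0' : 0 < s' := lt_of_lt_of_le hM hs'
      have hsum : (m t + δ)⁻¹ ≤ c * s + d * s' := by
        calc (m t + δ)⁻¹ = c * (m t + δ)⁻¹ + d * (m t + δ)⁻¹ := by
              rw [← add_mul, hcd, one_mul]
          _ ≤ c * s + d * s' := add_le_add (mul_le_mul_of_nonneg_left hs hc)
              (mul_le_mul_of_nonneg_left hs' hd)
      have hsp : 0 < c * s + d * s' := lt_of_lt_of_le hM hsum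
      refine ⟨c * s + d * s', (c * s / (c * s + d * s')) • z + (d * s' / (c * s + d * s')) • z',
        hsum, ?_, ?_⟩
      · refine convex_convexHull ℝ _ hz hz' (by positivity) (by positivity) ?_
        rw [← add_div, div_self hsp.ne']
      · rw [smul_add, smul_smul, smul_smul, smul_smul, smul_smul, mul_div_cancel₀ _ hsp.ne',
          mul_div_cancel₀ _ hsp.ne']
    intro y hy
    have hy' := convexHull_min (t := {y : JFK 𝕜 | ∃ (s : ℝ) (z : JFK 𝕜), (m t + δ)⁻¹ ≤ s ∧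
        z ∈ convexHull ℝ (x '' Set.Ici n₁) ∧ y = s • z}) ?_ hconv hy
    · obtain ⟨s, z, hs, hz, rfl⟩ := hy'
      have hM : 0 < (m t + δ)⁻¹ := by positivity
      have h1 := hn₁ z hz
      rw [hpr s z (hM.le.trans hs)]
      calc 1 - ε ≤ (m t + δ)⁻¹ * (m t - δ) := by
            rw [inv_mul_eq_div, le_div_iff₀ (by positivity)]; exact hδ2
        _ ≤ s * p z := mul_le_mul hs h1 (by linarith) (hM.le.trans hs)
    · rintro _ ⟨i, hi, rfl⟩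
      have hi1 : n₁ ≤ i := (le_max_left _ _).trans hi
      have hi2 : n₂ ≤ i := (le_max_right _ _).trans hi
      refine ⟨(p (x i))⁻¹, x i, ?_, subset_convexHull ℝ _ ⟨i, hi1, rfl⟩, rfl⟩
      exact inv_anti₀ (hpos i) (hn₂ i hi2).le
  · intro n
    simp only [w]
    rw [RCLike.real_smul_eq_coe_smul (K := 𝕜), map_smul, hxe, if_pos (even_two_mul n)]
    simp
  · intro n
    simp only [w]
    rw [RCLike.real_smul_eq_coe_smul (K := 𝕜), map_smul, hxe, if_neg]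
    · rw [smul_eq_mul, mul_one, RCLike.norm_ofReal, abs_of_pos (inv_pos.2 (hpos _))]
      exact inv_anti₀ (hpos _) (hub _)
    · rw [Nat.not_even_iff_odd]; exact odd_two_mul_add_one n

end Pool.Agent.Lib.P7de1bc.K
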